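import Pool.Agent.W_5d512e_h80.Arith

set_option autoImplicit false

namespace Pool.Agent.W_5d512e_h80

open Pool.Agent.W_MP_5d512e_h33

/-- the filtering of the output, generic bounds -/
theorem Filter_gen {D d : ℕ} {W : ℕ → Fin D} {w : ℕ → Fin d} {T S T' S' : ℕ → ℕ}
    (φ : Fin D → Option (Fin d)) (B : ℕ → ℕ)
    (h1 : ∀ (N j : ℕ) (h : j < (((List.range N).map W).filterMap φ).length),
      (((List.range N).map W).filterMap φ)[j] = w j)
    (h2 : ∀ n : ℕ, n ≤ (((List.range (B n)).map W).filterMap φ).length)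
    (hT : ∀ n, 1 ≤ n → T (B n + 1) ≤ T' n) (hS : ∀ n, 1 ≤ n → S (B n + 1) ≤ S' n)
    (h : Gen T S W) : Gen T' S' w := by
  obtain ⟨m, k, g, δM, conf, c0, cs, co, cu, cb⟩ := h
  have hout : ∀ t, (conf t).2.2.2 = (List.range (conf t).2.2.2.length).map W :=
    fun t => out_eq (co t)
  refine ⟨m, k, g,
    fun s r => ((δM s r).1, (δM s r).2.1, (δM s r).2.2.1, (δM s r).2.2.2.bind φ),
    fun t => ((conf t).1, (conf t).2.1, (conf t).2.2.1, (conf t).2.2.2.filterMap φ),
    ?_, ?_, ?_, ?_, ?_⟩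
  · simp [c0]
  · intro t
    simp only
    rw [cs t]
    simp only [List.filterMap_append, Prod.mk.injEq, true_and, List.append_cancel_left_eq]
    cases (δM (conf t).1 (fun j' => (conf t).2.1 j' ((conf t).2.2.1 j'))).2.2.2 with
    | none => simp
    | some x =>
      simp only [Option.toList_some, Option.bind_some]
      cases hx : φ x <;> simp [hx]
  · intro t i hi
    simp only at hi ⊢
    have e := hout t
    have hi' : i < (((List.range (conf t).2.2.2.length).map W).filterMap φ).length := by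
      rw [← e]; exact hi
    have := h1 _ i hi'
    rw [← this]
    congr 1
    rw [← e]
  · intro n
    obtain ⟨t, ht⟩ := cu (B n)
    refine ⟨t, ?_⟩
    simp only
    refine (h2 n).trans ?_
    have := (prefix_range W ht).filterMap φ
    rw [← hout t] at this
    exact this.length_le
  · intro n t hn ht
    simp only at ht ⊢
    have hlt : ∀ t' < t, (conf t').2.2.2.length < B n + 1 := by
      intro t' ht'
      by_contra hcon
      have hB : B n ≤ (conf t').2.2.2.length := by omega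
      have h3 := (prefix_range W hB).filterMap φ
      rw [← hout t'] at h3
      have h4 := h3.length_le
      have h5 := h2 n
      have h6 := ht t' ht'
      omega
    obtain ⟨h3, h4⟩ := cb _ t (by omega) hlt
    exact ⟨h3.trans (hT n hn), fun j => (h4 j).trans (hS n hn)⟩

/-- some time bound always exists -/
theorem Filter_gen_of_logSpace {D : ℕ} {W : ℕ → Fin D} (h : LogSpace W) :
    ∃ (T : ℕ → ℕ) (C : ℕ), Gen T (fun n => C * (Nat.log 2 n + 1)) W := by
  obtain ⟨m, k, g, C, δM, conf, c0, cs, co, cu, cb⟩ := h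
  choose T hT using cu
  refine ⟨T, C, m, k, g, δM, conf, c0, cs, co, fun n => ⟨T n, hT n⟩, fun n t hn ht => ⟨?_, ?_⟩⟩
  · by_contra hcon
    have h1 := ht (T n) (by omega)
    have h2 := hT n
    omega
  · exact cb n t hn ht

theorem Filter_logSpace_of_gen {d : ℕ} {w : ℕ → Fin d} {T S : ℕ → ℕ} {C : ℕ}
    (hS : ∀ n, 1 ≤ n → S n ≤ C * (Nat.log 2 n + 1)) (h : Gen T S w) : LogSpace w := by
  obtain ⟨m, k, g, δM, conf, c0, cs, co, cu, cb⟩ := h
  exact ⟨m, k, g, C, δM, conf, c0, cs, co, cu,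
    fun n t hn ht j => ((cb n t hn ht).2 j).trans (hS n hn)⟩

theorem Filter_arith (C n : ℕ) : C * (n + 1) ^ C + 1 ≤ (C + 1) * (n + 1) ^ (C + 1) := by
  have h1 : 1 ≤ (n + 1) ^ C := Nat.one_le_pow _ _ (by omega)
  calc C * (n + 1) ^ C + 1 ≤ C * (n + 1) ^ C + (n + 1) ^ C := by omega
    _ = (C + 1) * (n + 1) ^ C := by ring
    _ ≤ (C + 1) * (n + 1) ^ (C + 1) :=
        Nat.mul_le_mul_left _ (Nat.pow_le_pow_right (by omega) (by omega))

theorem Filter_arith2 (C C0 n : ℕ) : C0 * (C * (n + 1) ^ C + 1 + 1) ^ C0 ≤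
    (C0 * (C + 2) ^ C0 + C * C0) * (n + 1) ^ (C0 * (C + 2) ^ C0 + C * C0) := by
  have h1 : 1 ≤ (n + 1) ^ C := Nat.one_le_pow _ _ (by omega)
  have h2 : C * (n + 1) ^ C + 1 + 1 ≤ (C + 2) * (n + 1) ^ C := by
    have : (C + 2) * (n + 1) ^ C = C * (n + 1) ^ C + 2 * (n + 1) ^ C := by ring
    omega
  calc C0 * (C * (n + 1) ^ C + 1 + 1) ^ C0 ≤ C0 * ((C + 2) * (n + 1) ^ C) ^ C0 :=
        Nat.mul_le_mul_left _ (Nat.pow_le_pow_left h2 _)
    _ = C0 * (C + 2) ^ C0 * (n + 1) ^ (C * C0) := by rw [mul_pow, ← pow_mul, mul_assoc]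
    _ ≤ (C0 * (C + 2) ^ C0 + C * C0) * (n + 1) ^ (C0 * (C + 2) ^ C0 + C * C0) :=
        Nat.mul_le_mul (Nat.le_add_right _ _) (Nat.pow_le_pow_right (by omega)
          (Nat.le_add_left _ _))

/-- TASK Filter. Same proof as `Pool.Agent.W_MP_5d512e_h33.LogSpace.filter` (file
`Pool/Agent/W_MP_5d512e_h33/Main.lean`, read it first): keep the machine, only replace its output
letter `x` by `φ x` (`.bind φ`), the configurations become
`((conf t).1, (conf t).2.1, (conf t).2.2.1, (conf t).2.2.2.filterMap φ)`.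
If `n ≥ 1` and before time `t` fewer than `n` letters of `w` are output, then before time `t`
fewer than `N := C * (n + 1) ^ C + 1` letters of `W` are output (otherwise the prefix of length
`C * (n + 1) ^ C` of `W` has been output and its filterMap has length at least `n`), and `1 ≤ N`.
So the bounds for `W` at `N` hold at time `t`:
* for `TimeSpace`: `t ≤ C₀ * (N + 1) ^ C₀` is at most `C₁ * (n + 1) ^ C₁` for a suitable `C₁`, and
  heads `+ 1 ≤ C₀ * s N ≤ C₁ * s n` by monotonicity and `Adm.poly`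
  (use `N ≤ (C + 1) * (n + 1) ^ (C + 1)`, and `Adm.poly` with `e = C + 1`).
* for `LogSpace`: the same with `s = Nat.log 2 n + 1` (`adm_log`).
-/
theorem timeSpace_filter {D d : ℕ} {W : ℕ → Fin D} {w : ℕ → Fin d} {s : ℕ → ℕ} (hs : Adm s)
    (hf : FilterOf W w) (h : TimeSpace s W) : TimeSpace s w := by
  obtain ⟨φ, C, h1, h2⟩ := hf
  obtain ⟨C0, hG⟩ := h
  obtain ⟨c, hc⟩ := hs.poly (C + 1)
  refine ⟨C0 * (C + 2) ^ C0 + C * C0 + C0 * c, Filter_gen φ (fun n => C * (n + 1) ^ C) h1 h2 ?_ ?_ hG⟩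
  · intro n _
    refine (Filter_arith2 C C0 n).trans ?_
    exact Nat.mul_le_mul (Nat.le_add_right _ _) (Nat.pow_le_pow_right (by omega)
      (Nat.le_add_right _ _))
  · intro n _
    calc C0 * s (C * (n + 1) ^ C + 1) ≤ C0 * s ((C + 1) * (n + 1) ^ (C + 1)) :=
          Nat.mul_le_mul_left _ (hs.mono (Filter_arith C n))
      _ ≤ C0 * (c * s n) := Nat.mul_le_mul_left _ (hc n)
      _ = C0 * c * s n := by ring
      _ ≤ (C0 * (C + 2) ^ C0 + C * C0 + C0 * c) * s n :=
          Nat.mul_le_mul_right _ (Nat.le_add_left _ _)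

theorem logSpace_filter {D d : ℕ} {W : ℕ → Fin D} {w : ℕ → Fin d}
    (hf : FilterOf W w) (h : LogSpace W) : LogSpace w := by
  obtain ⟨φ, C, h1, h2⟩ := hf
  obtain ⟨T, C0, hG⟩ := Filter_gen_of_logSpace h
  obtain ⟨c, hc⟩ := adm_log.poly (C + 1)
  have hS : ∀ n, 1 ≤ n → (fun n => C0 * (Nat.log 2 n + 1)) (C * (n + 1) ^ C + 1) ≤
      (fun n => C0 * c * (Nat.log 2 n + 1)) n := by
    intro n _
    have h3 := adm_log.mono (Filter_arith C n)
    have h4 := hc n
    simp only at h3 h4 ⊢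
    calc C0 * (Nat.log 2 (C * (n + 1) ^ C + 1) + 1) ≤ C0 * (c * (Nat.log 2 n + 1)) :=
          Nat.mul_le_mul_left _ (h3.trans h4)
      _ = C0 * c * (Nat.log 2 n + 1) := by ring
  exact Filter_logSpace_of_gen (T := fun n => T (C * (n + 1) ^ C + 1)) (C := C0 * c)
    (fun n _ => le_rfl) (Filter_gen φ (fun n => C * (n + 1) ^ C) h1 h2 (fun n _ => le_rfl) hS hG)

end Pool.Agent.W_5d512e_h80
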