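import Pool.Agent.W_5d512e_h80.Arith

set_option autoImplicit false

namespace Pool.Agent.W_5d512e_h80

/-- The powers of the logarithm are admissible. -/
theorem adm_pow (k : ℕ) : Adm (fun n => (Nat.log 2 n + 1) ^ (k + 1)) where
  mono := fun _ _ h => Nat.pow_le_pow_left (adm_log.mono h) _
  log := fun n => Nat.le_self_pow (by omega) _
  sq := by
    obtain ⟨c, hc⟩ := adm_log.sq
    refine ⟨c ^ (k + 1), fun n => ?_⟩
    have h := Nat.pow_le_pow_left (hc n) (k + 1)
    rwa [mul_pow] at h

end Pool.Agent.W_5d512e_h80
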