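import Pool.Agent.W_5d512e_h80.Defs

set_option autoImplicit false

namespace Pool.Agent.W_5d512e_h80

theorem Arith_iter {s : ℕ → ℕ} {c : ℕ} (hc : ∀ n : ℕ, s (n ^ 2) ≤ c * s n) (n j : ℕ) :
    s (n ^ (2 ^ j)) ≤ c ^ j * s n := by
  induction j with
  | zero => simp
  | succ j ih =>
    have h1 : n ^ (2 ^ (j + 1)) = (n ^ (2 ^ j)) ^ 2 := by
      rw [← pow_mul, pow_succ]
    rw [h1]
    calc s ((n ^ (2 ^ j)) ^ 2) ≤ c * s (n ^ (2 ^ j)) := hc _
      _ ≤ c * (c ^ j * s n) := Nat.mul_le_mul_left _ ih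
      _ = c ^ (j + 1) * s n := by ring

/-- TASK Arith. Proof of `Adm.poly`: let `c` be the constant of `hs.sq`. By induction on `j`,
`s (n ^ (2 ^ j)) ≤ c ^ j * s n` (apply `sq` at `n ^ (2 ^ j)`). Given `e`, for `n ≥ max e 2` we have
`e * (n + 1) ^ e ≤ n * (n ^ 2) ^ e = n ^ (2 * e + 1) ≤ n ^ (2 ^ (2 * e + 1))`, so monotonicity
gives the bound with the constant `c ^ (2 * e + 1)`; for the finitely many smaller `n` use
`s (e * (n + 1) ^ e) ≤ s (e * (e + 3) ^ e)` and `1 ≤ s n` (from `hs.log`). Take the sum of the two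
constants.

Proof of `adm_log`: monotone by `Nat.log_mono_right`; `Nat.log 2 (n ^ 2) ≤ 2 * Nat.log 2 n + 1`
since `n < 2 ^ (Nat.log 2 n + 1)`. -/
theorem Adm.poly {s : ℕ → ℕ} (hs : Adm s) (e : ℕ) :
    ∃ c : ℕ, ∀ n : ℕ, s (e * (n + 1) ^ e) ≤ c * s n := by
  obtain ⟨c, hc⟩ := hs.sq
  refine ⟨c ^ (2 * e + 1) + s (e * (e + 3) ^ e), fun n => ?_⟩
  rw [Nat.add_mul]
  rcases Nat.lt_or_ge n (max e 2) with hn | hn
  · have h1 : n + 1 ≤ e + 3 := by
      have h2 : max e 2 ≤ e + 2 := max_le (by omega) (by omega)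
      omega
    have h2 : s (e * (n + 1) ^ e) ≤ s (e * (e + 3) ^ e) :=
      hs.mono (Nat.mul_le_mul_left _ (Nat.pow_le_pow_left h1 e))
    have h3 : 1 ≤ s n := by
      have h4 := hs.log n
      omega
    have h4 : s (e * (e + 3) ^ e) * 1 ≤ s (e * (e + 3) ^ e) * s n := Nat.mul_le_mul_left _ h3
    omega
  · have he : e ≤ n := (le_max_left _ _).trans hn
    have h2 : 2 ≤ n := (le_max_right _ _).trans hn
    have h3 : n + 1 ≤ n ^ 2 := by nlinarith
    have h4 : e * (n + 1) ^ e ≤ n ^ (2 ^ (2 * e + 1)) := by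
      calc e * (n + 1) ^ e ≤ n * (n ^ 2) ^ e := Nat.mul_le_mul he (Nat.pow_le_pow_left h3 e)
        _ = n ^ (2 * e + 1) := by
            rw [← pow_mul, pow_succ]
            ring
        _ ≤ n ^ (2 ^ (2 * e + 1)) :=
            Nat.pow_le_pow_right (by omega) (Nat.lt_two_pow_self).le
    have h5 := (hs.mono h4).trans (Arith_iter hc n (2 * e + 1))
    exact h5.trans (Nat.le_add_right _ _)

theorem adm_log : Adm (fun n => Nat.log 2 n + 1) := by
  refine ⟨fun a b h => Nat.add_le_add_right (Nat.log_mono_right h) 1, fun n => le_rfl, 2,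
    fun n => ?_⟩
  show Nat.log 2 (n ^ 2) + 1 ≤ 2 * (Nat.log 2 n + 1)
  rcases Nat.eq_zero_or_pos n with h0 | h0
  · subst h0
    simp
  · have h1 : n < 2 ^ (Nat.log 2 n + 1) := Nat.lt_pow_succ_log_self (by norm_num) n
    have h2 : n ^ 2 < 2 ^ (2 * (Nat.log 2 n + 1)) := by
      calc n ^ 2 < (2 ^ (Nat.log 2 n + 1)) ^ 2 := Nat.pow_lt_pow_left h1 (by norm_num)
        _ = 2 ^ (2 * (Nat.log 2 n + 1)) := by rw [← pow_mul, Nat.mul_comm]
    have h3 : Nat.log 2 (n ^ 2) < 2 * (Nat.log 2 n + 1) :=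
      Nat.log_lt_of_lt_pow (Nat.pow_pos h0).ne' h2
    omega

end Pool.Agent.W_5d512e_h80
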