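import Pool.Agent.W_5d512e_h80.Defs

set_option autoImplicit false

namespace Pool.Agent.W_5d512e_h80

open Pool.Agent.W_MP_5d512e_h33

/-- the arithmetic of the bound -/
theorem Count_arith (m k g C : ℕ) : ∃ C' : ℕ, C ≤ C' ∧ ∀ n : ℕ, 1 ≤ n →
    n * ((m + 1) * ((C * (Nat.log 2 n + 1)) ^ k * ((g + 1) ^ (C * (Nat.log 2 n + 1))) ^ k)) ≤
      C' * (n + 1) ^ C' := by
  refine ⟨(m + 1) * C ^ k + (1 + k + 2 * ((g + 1) * C) * k) + C, by omega, fun n hn => ?_⟩
  set L := Nat.log 2 n with hL
  set B := C * (L + 1) with hB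
  have h1 : L ≤ n := Nat.log_le_self 2 n
  have h2 : B ≤ C * (n + 1) := Nat.mul_le_mul_left _ (by omega)
  have h3 : B ^ k ≤ C ^ k * (n + 1) ^ k := by
    rw [← mul_pow]
    exact Nat.pow_le_pow_left h2 k
  have h4 : g + 1 ≤ 2 ^ (g + 1) := Nat.lt_two_pow_self.le
  have h5 : 2 ^ (L + 1) ≤ (n + 1) ^ 2 := by
    have h6 : 2 ^ L ≤ n := Nat.pow_log_le_self 2 (by omega)
    rw [pow_succ]
    nlinarith
  have h6 : (g + 1) ^ B ≤ (n + 1) ^ (2 * ((g + 1) * C)) := by
    calc (g + 1) ^ B ≤ (2 ^ (g + 1)) ^ B := Nat.pow_le_pow_left h4 B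
      _ = (2 ^ (L + 1)) ^ ((g + 1) * C) := by
          rw [← pow_mul, ← pow_mul, hB]
          congr 1
          ring
      _ ≤ ((n + 1) ^ 2) ^ ((g + 1) * C) := Nat.pow_le_pow_left h5 _
      _ = (n + 1) ^ (2 * ((g + 1) * C)) := by rw [← pow_mul]
  have h7 : ((g + 1) ^ B) ^ k ≤ (n + 1) ^ (2 * ((g + 1) * C) * k) := by
    rw [pow_mul (n + 1)]
    exact Nat.pow_le_pow_left h6 k
  calc n * ((m + 1) * (B ^ k * ((g + 1) ^ B) ^ k))
      ≤ (n + 1) * ((m + 1) * ((C ^ k * (n + 1) ^ k) * (n + 1) ^ (2 * ((g + 1) * C) * k))) := by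
        apply Nat.mul_le_mul (by omega)
        apply Nat.mul_le_mul_left
        exact Nat.mul_le_mul h3 h7
    _ = ((m + 1) * C ^ k) * (n + 1) ^ (1 + k + 2 * ((g + 1) * C) * k) := by
        rw [pow_add, pow_add, pow_one]
        ring
    _ ≤ ((m + 1) * C ^ k + (1 + k + 2 * ((g + 1) * C) * k) + C) *
        (n + 1) ^ ((m + 1) * C ^ k + (1 + k + 2 * ((g + 1) * C) * k) + C) := by
        apply Nat.mul_le_mul (by omega)
        exact Nat.pow_le_pow_right (by omega) (by omega)

/-- a sequence with a repeated core does not output infinitely many letters -/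
theorem Count_repeat {X : Type} (core : ℕ → X) (F : X → X) (len : ℕ → ℕ) (ℓ : X → ℕ)
    (hF : ∀ t, core (t + 1) = F (core t)) (hlen : ∀ t, len (t + 1) = len t + ℓ (core t))
    (hunb : ∀ n, ∃ t, n ≤ len t) (t₁ t₂ : ℕ) (h : t₁ < t₂) (hc : core t₁ = core t₂)
    (hl : len t₁ = len t₂) : False := by
  have hmono : Monotone len := monotone_nat_of_le_succ fun t => by
    rw [hlen]
    exact Nat.le_add_right _ _
  have h1 : ∀ j, core (t₁ + j) = core (t₂ + j) ∧ len (t₁ + j) = len (t₂ + j) := by
    intro j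
    induction j with
    | zero => exact ⟨hc, hl⟩
    | succ j ih =>
      rw [← add_assoc, ← add_assoc, hF, hF, hlen, hlen, ih.1, ih.2]
      exact ⟨rfl, rfl⟩
  obtain ⟨P, hP⟩ := Nat.exists_eq_add_of_lt h
  have h2 : ∀ j, len (t₁ + j * (P + 1)) = len t₁ := by
    intro j
    induction j with
    | zero => simp
    | succ j ih =>
      have h3 := (h1 (j * (P + 1))).2
      rw [ih] at h3
      rw [h3]
      congr 1
      rw [hP]
      ring
  obtain ⟨t, ht⟩ := hunb (len t₁ + 1)
  have h4 := hmono (show t ≤ t₁ + t * (P + 1) by nlinarith)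
  rw [h2 t] at h4
  omega

/-- TASK Count. A machine that generates an infinite word in logarithmic space does so in
polynomial time (converse trivial). Proof: take the machine of `h` (same `m k g δM conf`), with
space constant `C`. Only the time bound is new. Let `n ≥ 1` and let `t` be such that before time
`t` fewer than `n` letters are output; put `B = C * (Nat.log 2 n + 1)`.
For all `t'' ≤ t` the heads satisfy head `+ 1 ≤ B` (apply the space bound to `n, t''`).
Cells `≥ B` are blank (`0`) in `conf t''`, `t'' ≤ t` (induction: only scanned cells are changed).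
Consider the map `t'' ↦ (output length, state, heads, tapes restricted to the cells < B)` from
`Fin t` to `Fin n × Fin (m+1) × (Fin k → Fin B) × (Fin k → Fin B → Fin (g+1))`. It is injective:
if `t₁ < t₂` had the same image, then output lengths at `t₁, t₂` agree, and state, tapes and heads
of `conf t₁` and `conf t₂` are equal; hence by induction on `j` state, tapes, heads of
`conf (t₁ + j)` and `conf (t₂ + j)` are equal and the letters output in the `j`-th steps agree; as
no letter is output between `t₁` and `t₂` and the sequence repeats with period `t₂ - t₁`, the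
output length is constant from `t₁` on, contradicting that all lengths are reached.
So `t ≤ n * (m+1) * B ^ k * ((g+1) ^ B) ^ k` (`Fintype.card_le_of_injective`), and this is at most
`C' * (n+1) ^ C'`: with `g + 1 ≤ 2 ^ g'` (e.g. `g' = g + 1`),
`(g+1) ^ B ≤ 2 ^ (g' * C * (Nat.log 2 n + 1)) = (2 ^ (Nat.log 2 n + 1)) ^ (g' * C)
≤ (2 * (n + 1)) ^ (g' * C)` and `B ≤ C * (n + 1)`. -/
theorem timeSpace_of_logSpace {d : ℕ} {w : ℕ → Fin d} (h : LogSpace w) :
    TimeSpace (fun n => Nat.log 2 n + 1) w := by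
  classical
  obtain ⟨m, k, g, C, δM, conf, h0, hstep, hout, hunb, hspace⟩ := h
  obtain ⟨C', hCC', harith⟩ := Count_arith m k g C
  refine ⟨C', m, k, g, δM, conf, h0, hstep, hout, hunb, fun n t hn ht => ⟨?_, fun j => ?_⟩⟩
  swap
  · exact (hspace n t hn ht j).trans (Nat.mul_le_mul_right _ hCC')
  refine le_trans ?_ (harith n hn)
  set B := C * (Nat.log 2 n + 1) with hB
  have hhead : ∀ t'' ≤ t, ∀ j, (conf t'').2.2.1 j + 1 ≤ B := fun t'' h1 =>
    hspace n t'' hn (fun t' h2 => ht t' (by omega))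
  have hblank : ∀ t'' ≤ t, ∀ j i, B ≤ i → (conf t'').2.1 j i = 0 := by
    intro t''
    induction t'' with
    | zero =>
      intro _ j i _
      rw [h0]
    | succ t'' ih =>
      intro h1 j i hi
      rw [hstep t'']
      have h2 := hhead t'' (by omega) j
      show (if i = (conf t'').2.2.1 j then _ else _) = _
      rw [if_neg (by omega)]
      exact ih (by omega) j i hi
  -- the map to the set of small configurations
  have hcard : Fintype.card (Fin n × Fin (m + 1) × (Fin k → Fin B) × (Fin k → Fin B → Fin (g + 1)))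
      = n * ((m + 1) * (B ^ k * ((g + 1) ^ B) ^ k)) := by
    simp [Fintype.card_prod, Fintype.card_fin, Fintype.card_pi]
  rw [← hcard]
  have h1 : Function.Injective (fun s : Fin t =>
      ((⟨(conf s).2.2.2.length, ht s s.2⟩, (conf s).1, fun j => ⟨(conf s).2.2.1 j, by
        have := hhead s s.2.le j
        omega⟩, fun j i => (conf s).2.1 j i) :
        Fin n × Fin (m + 1) × (Fin k → Fin B) × (Fin k → Fin B → Fin (g + 1)))) := by
    have key : ∀ s₁ s₂ : ℕ, s₁ < t → s₂ < t → s₁ < s₂ →
        (conf s₁).2.2.2.length = (conf s₂).2.2.2.length → (conf s₁).1 = (conf s₂).1 →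
        (∀ j, (conf s₁).2.2.1 j = (conf s₂).2.2.1 j) →
        (∀ j (i : ℕ), i < B → (conf s₁).2.1 j i = (conf s₂).2.1 j i) → False := by
      intro s₁ s₂ hs₁ hs₂ hlt e1 e2 e3 e4
      refine Count_repeat (X := Fin (m + 1) × (Fin k → ℕ → Fin (g + 1)) × (Fin k → ℕ))
        (fun t => ((conf t).1, (conf t).2.1, (conf t).2.2.1))
        (fun c => ((δM c.1 (fun j => c.2.1 j (c.2.2 j))).1,
          fun j i => if i = c.2.2 j
            then (δM c.1 (fun j' => c.2.1 j' (c.2.2 j'))).2.1 j
            else c.2.1 j i,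
          fun j => c.2.2 j + ((δM c.1 (fun j' => c.2.1 j' (c.2.2 j'))).2.2.1 j : ℕ) - 1))
        (fun t => (conf t).2.2.2.length)
        (fun c => ((δM c.1 (fun j' => c.2.1 j' (c.2.2 j'))).2.2.2).toList.length)
        ?_ ?_ hunb s₁ s₂ hlt ?_ e1
      · intro t
        show ((conf (t + 1)).1, (conf (t + 1)).2.1, (conf (t + 1)).2.2.1) = _
        rw [hstep t]
      · intro t
        show (conf (t + 1)).2.2.2.length = _
        rw [hstep t]
        simp only [List.length_append]
      · show ((conf s₁).1, (conf s₁).2.1, (conf s₁).2.2.1) =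
          ((conf s₂).1, (conf s₂).2.1, (conf s₂).2.2.1)
        rw [e2, funext e3]
        congr 2
        funext j i
        by_cases hi : i < B
        · exact e4 j i hi
        · rw [hblank s₁ hs₁.le j i (by omega), hblank s₂ hs₂.le j i (by omega)]
    intro s₁ s₂ he
    rw [Prod.mk.injEq, Prod.mk.injEq, Prod.mk.injEq] at he
    obtain ⟨e1, e2, e3, e4⟩ := he
    have e1' : (conf s₁).2.2.2.length = (conf s₂).2.2.2.length := congrArg Fin.val e1
    have e3' : ∀ j, (conf s₁).2.2.1 j = (conf s₂).2.2.1 j := fun j =>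
      congrArg Fin.val (congrFun e3 j)
    have e4' : ∀ j (i : ℕ), i < B → (conf s₁).2.1 j i = (conf s₂).2.1 j i := fun j i hi =>
      congrFun (congrFun e4 j) ⟨i, hi⟩
    rcases lt_trichotomy (s₁ : ℕ) (s₂ : ℕ) with hlt | hlt | hlt
    · exact (key s₁ s₂ s₁.2 s₂.2 hlt e1' e2 e3' e4').elim
    · exact Fin.ext hlt
    · exact (key s₂ s₁ s₂.2 s₁.2 hlt e1'.symm e2.symm (fun j => (e3' j).symm)
        (fun j i hi => (e4' j i hi).symm)).elim
  have h2 := Fintype.card_le_of_injective _ h1
  rwa [Fintype.card_fin] at h2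

end Pool.Agent.W_5d512e_h80
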