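import Pool.Agent.W_MP_5d512e_h33.Main
import Pool.Agent.W_MP_5d512e_lc.Machine

/-!
# Growth of iterated transducers against time and space: definitions (seat 80)
-/

set_option autoImplicit false

namespace Pool.Agent.W_5d512e_h80

open Pool.Agent.W_MP_5d512e_h33

/-- Admissible space bounds: nondecreasing, at least logarithmic, and changed by at most a
constant factor when the argument is squared (for example the powers of the logarithm). -/
structure Adm (s : ℕ → ℕ) : Prop where
  mono : Monotone s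
  log : ∀ n : ℕ, Nat.log 2 n + 1 ≤ s n
  sq : ∃ c : ℕ, ∀ n : ℕ, s (n ^ 2) ≤ c * s n

/-- The infinite word `w` is generated by a deterministic multi-tape machine such that, up to the
first time at which `n` letters are output (`n ≥ 1`), at most `T n` steps are made and the heads
stay in the first `S n` cells. The machine format is the one of the frozen statement. -/
def Gen {d : ℕ} (T S : ℕ → ℕ) (w : ℕ → Fin d) : Prop :=
  ∃ (m k g : ℕ)
    (δM : Fin (m+1) → (Fin k → Fin (g+1)) →
      Fin (m+1) × (Fin k → Fin (g+1)) × (Fin k → Fin 3) × Option (Fin d))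
    (conf : ℕ → Fin (m+1) × (Fin k → ℕ → Fin (g+1)) × (Fin k → ℕ) × List (Fin d)),
    conf 0 = (0, fun _ _ => 0, fun _ => 0, []) ∧
    (∀ t : ℕ, conf (t+1) =
      ((δM (conf t).1 (fun j => (conf t).2.1 j ((conf t).2.2.1 j))).1,
       fun j i => if i = (conf t).2.2.1 j
         then (δM (conf t).1 (fun j' => (conf t).2.1 j' ((conf t).2.2.1 j'))).2.1 j
         else (conf t).2.1 j i,
       fun j => (conf t).2.2.1 j
         + ((δM (conf t).1 (fun j' => (conf t).2.1 j' ((conf t).2.2.1 j'))).2.2.1 j : ℕ) - 1,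
       (conf t).2.2.2
         ++ ((δM (conf t).1 (fun j' => (conf t).2.1 j' ((conf t).2.2.1 j'))).2.2.2).toList)) ∧
    (∀ (t i : ℕ) (h : i < (conf t).2.2.2.length), (conf t).2.2.2[i] = w i) ∧
    (∀ n : ℕ, ∃ t : ℕ, n ≤ (conf t).2.2.2.length) ∧
    (∀ n t : ℕ, 1 ≤ n → (∀ t' < t, (conf t').2.2.2.length < n) →
      t ≤ T n ∧ ∀ j : Fin k, (conf t).2.2.1 j + 1 ≤ S n)

/-- Generated in polynomial time and, simultaneously, in space `O(s)`. -/
def TimeSpace {d : ℕ} (s : ℕ → ℕ) (w : ℕ → Fin d) : Prop :=
  ∃ C : ℕ, Gen (fun n => C * (n + 1) ^ C) (fun n => C * s n) w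

/-- Obtained from the word `W` by deleting some letters and renaming the others, the `n`-th
remaining letter being among the first `C * (n + 1) ^ C` letters of `W`. -/
def FilterOf {D d : ℕ} (W : ℕ → Fin D) (w : ℕ → Fin d) : Prop :=
  ∃ (φ : Fin D → Option (Fin d)) (C : ℕ),
    (∀ (N i : ℕ) (h : i < (((List.range N).map W).filterMap φ).length),
      (((List.range N).map W).filterMap φ)[i] = w i) ∧
    (∀ n : ℕ, n ≤ (((List.range (C * (n + 1) ^ C)).map W).filterMap φ).length)

/-- `W` is generated by iterating a non-erasing dgsm whose growth is `O(n * s n)` and whose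
outputs have length at most `b`. -/
def GrowthWord {D : ℕ} (b : ℕ) (s : ℕ → ℕ) (W : ℕ → Fin D) : Prop :=
  ∃ (p C : ℕ) (δ : Fin p → Fin D → Fin p) (q0 : Fin p) (out : Fin p → Fin D → List (Fin D))
    (a : Fin D), Iterates δ q0 out a W ∧ (∀ q x, (out q x).length ≤ b) ∧
    ∀ n : ℕ, ((trans δ q0 out)^[n] [a]).length ≤ C * (n + 1) * s n

end Pool.Agent.W_5d512e_h80
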