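import Pool.Agent.W_5d512e_h80.Arith

set_option autoImplicit false

namespace Pool.Agent.W_5d512e_h80

open Pool.Agent.W_MP_5d512e_h33

/-- Lower bound for the lengths of later iterates. -/
theorem Growth_aux1 {S A : Type} (Y : Sys S A) (n j : ℕ) :
    Y.t n + j * Y.K (Y.t n - 1) ≤ Y.t (n + j) := by
  induction j with
  | zero => simp
  | succ j ih =>
    have h1 : Y.t (n + (j + 1)) = Y.t (n + j) + Y.K (Y.t (n + j) - 1) := Y.t_succ (n + j)
    have h2 : Y.K (Y.t n - 1) ≤ Y.K (Y.t (n + j) - 1) := by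
      apply Y.K_mono
      have : Y.t n ≤ Y.t (n + j) := by
        have := Nat.zero_le (j * Y.K (Y.t n - 1))
        omega
      omega
    rw [h1, Nat.succ_mul]
    omega

/-- Upper bound for the lengths of the iterates. -/
theorem Growth_aux2 {S A : Type} (Y : Sys S A) (n : ℕ) :
    Y.t n ≤ 1 + n * Y.K (Y.t n - 1) := by
  induction n with
  | zero => simp [Y.t_zero]
  | succ n ih =>
    have h1 := Y.t_succ n
    have h2 : Y.K (Y.t n - 1) ≤ Y.K (Y.t (n + 1) - 1) := by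
      apply Y.K_mono
      omega
    have h3 : (n + 1) * Y.K (Y.t n - 1) ≤ (n + 1) * Y.K (Y.t (n + 1) - 1) :=
      Nat.mul_le_mul_left _ h2
    have h4 : (n + 1) * Y.K (Y.t n - 1) = n * Y.K (Y.t n - 1) + Y.K (Y.t n - 1) := by ring
    omega

/-- The times are at least their indices, and every number lies between two of them. -/
theorem Growth_aux3 {τ L : ℕ → ℕ} (h0 : τ 0 = 0)
    (hτ : ∀ i : ℕ, τ (i + 1) = τ i + 2 * (L i + 1)) (m : ℕ) :
    ∃ t : ℕ, t ≤ m ∧ τ t ≤ m ∧ m < τ (t + 1) := by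
  have hge : ∀ i, i ≤ τ i := by
    intro i
    induction i with
    | zero => omega
    | succ i ih =>
      have := hτ i
      omega
  have hex : ∃ i, m < τ (i + 1) := ⟨m, by have := hge (m + 1); omega⟩
  classical
  have h1 : m < τ (Nat.find hex + 1) := Nat.find_spec hex
  refine ⟨Nat.find hex, Nat.find_min' hex (by have := hge (m + 1); omega), ?_, h1⟩
  rcases Nat.eq_zero_or_pos (Nat.find hex) with h | h
  · rw [h, h0]
    exact Nat.zero_le _
  · have h2 := Nat.find_min hex (m := Nat.find hex - 1) (by omega)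
    rw [show Nat.find hex - 1 + 1 = Nat.find hex by omega] at h2
    omega

/-- TASK Growth, first part. `Y.K i` is the queue length at step `i`, it is nondecreasing
(`Sys.K_mono`), `Y.t (n+1) = Y.t n + Y.K (Y.t n - 1)` (`Sys.t_succ`), `n < Y.t n` (`Sys.t_lt`).
Proof: put `ρ n = Y.K (Y.t n - 1)`, nondecreasing. `Y.K n ≤ ρ n` as `n ≤ Y.t n - 1`. And
`(n + 1) * ρ n ≤ ρ n + ... + ρ (2 n) ≤ Y.t (2 n + 1) ≤ C * (2 n + 2) * s (2 n + 1)`, so
`ρ n ≤ 2 * C * s (2 n + 1) ≤ C' * s n` by `Adm.poly` (with `e = 2`) and monotonicity. -/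
theorem K_le_of_growth {S A : Type} (Y : Sys S A) {s : ℕ → ℕ} (hs : Adm s) {C : ℕ}
    (h : ∀ n : ℕ, Y.t n ≤ C * (n + 1) * s n) : ∃ C' : ℕ, ∀ n : ℕ, Y.K n ≤ C' * s n := by
  obtain ⟨c, hc⟩ := hs.poly 2
  refine ⟨2 * C * c, fun n => ?_⟩
  have h1 : Y.K n ≤ Y.K (Y.t n - 1) := by
    apply Y.K_mono
    have := Y.t_lt n
    omega
  have h2 := Growth_aux1 Y n (n + 1)
  have h3 := h (n + (n + 1))
  have h4 : s (n + (n + 1)) ≤ c * s n := by
    refine le_trans (hs.mono ?_) (hc n)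
    have : 2 * (n + 1) ^ 2 = 2 * n ^ 2 + (n + (n + 1)) + (2 * n + 1) := by ring
    omega
  have h5 : (n + 1) * Y.K (Y.t n - 1) ≤ (n + 1) * (2 * C * c * s n) := by
    calc (n + 1) * Y.K (Y.t n - 1) ≤ Y.t (n + (n + 1)) := by omega
      _ ≤ C * (n + (n + 1) + 1) * s (n + (n + 1)) := h3
      _ ≤ C * (n + (n + 1) + 1) * (c * s n) := Nat.mul_le_mul_left _ h4
      _ = (n + 1) * (2 * C * c * s n) := by ring
  have h6 := Nat.le_of_mul_le_mul_left h5 (Nat.succ_pos n)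
  omega

/-- TASK Growth, second part. `τ i` are times at which the queue length is `L i`; between `τ i` and
`τ (i+1)` there are `2 * (L i + 1)` steps and the queue length increases by at most one.
Proof. (1) For every `i` there is `t` with `τ t ≤ i ≤ τ (t+1)`, then `t ≤ i` and by monotonicity of
`Y.K` we get `Y.K i ≤ L (t+1) ≤ C * s (t + 1) ≤ C * s (i + 1)`.
(2) `Slow 1 4 Y.K` (definition in `W_MP_5d512e_h33.Growth`): if `4 * j ≤ Y.K m` then
`Y.K (m + j) ≤ Y.K m + 4`: take `t` with `τ t ≤ m < τ (t+1)`; then `j ≤ Y.K m / 4` and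
`Y.K m ≤ L (t+1)`, and `τ (t+2) = τ (t+1) + 2 * (L (t+1) + 1) > m + j`,
so `Y.K (m+j) ≤ L (t+2) ≤ L t + 2 ≤ Y.K m + 2`. Also outputs are bounded (hypothesis `hM`).
(3) `growth_iterate` with `k = 1` gives `D` with `Y.t n ≤ D * (n + 1) ^ 2`.
(4) With `t_succ` and monotonicity, `Y.t n ≤ 1 + n * Y.K (Y.t n - 1) ≤ 1 + n * (C * s (Y.t n))
≤ 1 + n * (C * s (D * (n + 1) ^ 2)) ≤ C' * (n + 1) * s n`, the last step by `Adm.poly` with
`e = D + 2` and `1 ≤ s n`. -/
theorem growth_of_times {S A : Type} (Y : Sys S A) {M : ℕ} (hM : ∀ q x, (Y.out q x).length ≤ M)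
    {s : ℕ → ℕ} (hs : Adm s) {τ L : ℕ → ℕ} (h0 : τ 0 = 0)
    (hτ : ∀ i : ℕ, τ (i + 1) = τ i + 2 * (L i + 1)) (hK : ∀ i : ℕ, Y.K (τ i) = L i)
    (hL : ∀ i : ℕ, L (i + 1) ≤ L i + 1) {C : ℕ} (hC : ∀ i : ℕ, L i ≤ C * s i) :
    ∃ C' : ℕ, ∀ n : ℕ, Y.t n ≤ C' * (n + 1) * s n := by
  have hKi : ∀ i : ℕ, Y.K i ≤ C * s (i + 1) := by
    intro i
    obtain ⟨t, ht, -, ht2⟩ := Growth_aux3 h0 hτ i
    have h1 : Y.K i ≤ Y.K (τ (t + 1)) := Y.K_mono ht2.le
    rw [hK] at h1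
    have h2 : s (t + 1) ≤ s (i + 1) := hs.mono (by omega)
    exact h1.trans ((hC (t + 1)).trans (Nat.mul_le_mul_left _ h2))
  have hslow : Slow 1 4 Y.K := by
    intro m j hj
    rw [pow_one] at hj
    obtain ⟨t, -, ht1, ht2⟩ := Growth_aux3 h0 hτ m
    have h1 : Y.K m ≤ Y.K (τ (t + 1)) := Y.K_mono ht2.le
    have h2 : Y.K (τ t) ≤ Y.K m := Y.K_mono ht1
    rw [hK] at h1 h2
    have h3 := hτ (t + 1)
    have h4 : Y.K (m + j) ≤ Y.K (τ (t + 1 + 1)) := Y.K_mono (by omega)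
    rw [hK] at h4
    have h5 := hL t
    have h6 := hL (t + 1)
    omega
  obtain ⟨D, hD⟩ := growth_iterate Y hM hslow
  obtain ⟨c, hc⟩ := hs.poly (D + 2)
  refine ⟨C * c + 1, fun n => ?_⟩
  have h1 := Growth_aux2 Y n
  have h2 : Y.K (Y.t n - 1) ≤ C * s (Y.t n) := by
    have := hKi (Y.t n - 1)
    rwa [Nat.sub_add_cancel (Y.t_pos n)] at this
  have h3 : Y.t n ≤ (D + 2) * (n + 1) ^ (D + 2) := by
    have h := hD n
    rw [pow_one] at h
    refine h.trans (Nat.mul_le_mul (by omega) ?_)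
    exact Nat.pow_le_pow_right (Nat.succ_pos n) (by omega)
  have h4 : s (Y.t n) ≤ c * s n := (hs.mono h3).trans (hc n)
  have h5 : 1 ≤ s n := by
    have := hs.log n
    omega
  have h6 : Y.K (Y.t n - 1) ≤ C * (c * s n) := h2.trans (Nat.mul_le_mul_left _ h4)
  calc Y.t n ≤ 1 + n * Y.K (Y.t n - 1) := h1
    _ ≤ s n + n * (C * (c * s n)) := Nat.add_le_add h5 (Nat.mul_le_mul_left _ h6)
    _ ≤ (C * c + 1) * (n + 1) * s n := by
      have e : (C * c + 1) * (n + 1) * s n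
          = s n + n * (C * (c * s n)) + (C * c * s n + n * s n) := by ring
      rw [e]
      exact Nat.le_add_right _ _

end Pool.Agent.W_5d512e_h80
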