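import Pool.Agent.W_5d512e_h80.Defs
import Pool.Agent.W_MP_5d512e_lc.Algo

set_option autoImplicit false

namespace Pool.Agent.W_5d512e_h80

open Pool.Agent.W_MP_5d512e_h33 Pool.Agent.W_MP_5d512e_lc

/-- words of length at most `M` -/
abbrev RowsBL (d M : ℕ) := {l : List (Fin d) // l.length ≤ M}

/-- control states -/
inductive RowsSt (p d M : ℕ)
  | start
  | ini (l : RowsBL d M)
  | rew (b : Bool) (q : Fin p)
  | rd (b : Bool) (q : Fin p)
  | wr (b : Bool) (q : Fin p) (l : RowsBL d M)

/-- symbols: blank, mark, letters -/
abbrev RowsSym (d : ℕ) := Option (Option (Fin d))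

instance Rows_finBL (d M : ℕ) : Finite (RowsBL d M) := by
  have : Set.Finite {l : List (Fin d) | l.length ≤ M} := List.finite_length_le (Fin d) M
  exact this.to_subtype

instance Rows_finSt (p d M : ℕ) : Finite (RowsSt p d M) := by
  let f : RowsSt p d M → Option (RowsBL d M ⊕ ((Bool × Fin p) ⊕ ((Bool × Fin p) ⊕
      (Bool × Fin p × RowsBL d M)))) := fun s =>
    match s with
    | .start => none
    | .ini l => some (.inl l)
    | .rew b s => some (.inr (.inl (b, s)))
    | .rd b s => some (.inr (.inr (.inl (b, s))))
    | .wr b s l => some (.inr (.inr (.inr (b, s, l))))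
  apply Finite.of_injective f
  intro x y h
  cases x <;> cases y <;> simp_all [f]

/-- the letter symbol -/
def Rows_lt {d : ℕ} (x : Fin d) : RowsSym d := some (some x)

/-- pair indexed by the tapes: tape `b`, tape `!b` -/
def Rows_two {α : Type} (b : Bool) (x y : α) : Bool → α := fun c => if c = b then x else y

@[simp] lemma Rows_two_b {α : Type} (b : Bool) (x y : α) : Rows_two b x y b = x := by
  simp [Rows_two]

@[simp] lemma Rows_two_nb {α : Type} (b : Bool) (x y : α) : Rows_two b x y (!b) = y := by
  simp [Rows_two]

lemma Rows_two_flip {α : Type} (b : Bool) (x y : α) : Rows_two b x y = Rows_two (!b) y x := by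
  funext c
  cases b <;> cases c <;> rfl

lemma Rows_two_le {b : Bool} {x y B : ℕ} (hx : x ≤ B) (hy : y ≤ B) (j : Bool) :
    Rows_two b x y j ≤ B := by
  cases b <;> cases j <;> assumption

lemma Rows_step {Q Γ D : Type} {δ : Trans Bool Q Γ D} {b : Bool} {q q' : Q}
    {T1 T2 : ℕ → Γ} {h1 h2 : ℕ} {out : List D} {x' y' : Γ} {d1 d2 : Fin 3}
    {o : Option D}
    (h : δ q (Rows_two b (T1 h1) (T2 h2)) = (q', Rows_two b x' y', Rows_two b d1 d2, o)) :
    step δ (q, Rows_two b T1 T2, Rows_two b h1 h2, out)
      = (q', Rows_two b (upd T1 h1 x') (upd T2 h2 y'),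
          Rows_two b (h1 + (d1 : ℕ) - 1) (h2 + (d2 : ℕ) - 1), out ++ o.toList) := by
  have hread : (fun j => Rows_two b T1 T2 j (Rows_two b h1 h2 j))
      = Rows_two b (T1 h1) (T2 h2) := by
    funext j
    cases b <;> cases j <;> rfl
  unfold step
  simp only [hread, h]
  refine Prod.ext rfl (Prod.ext ?_ (Prod.ext ?_ rfl))
  · funext j i
    cases b <;> cases j <;> rfl
  · funext j
    cases b <;> cases j <;> rfl

/-- tape with given initial contents, blank afterwards -/
def Rows_tape {d : ℕ} (l : List (RowsSym d)) : ℕ → RowsSym d := fun i => l.getD i none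

lemma Rows_tape_mid {d : ℕ} (P : List (RowsSym d)) (x : RowsSym d) (l : List (RowsSym d)) :
    Rows_tape (P ++ x :: l) P.length = x := by
  unfold Rows_tape
  simp [List.getD_eq_getElem?_getD]

lemma Rows_tape_end {d : ℕ} (P : List (RowsSym d)) : Rows_tape P P.length = none := by
  unfold Rows_tape
  simp [List.getD_eq_getElem?_getD]

lemma Rows_upd_mid {d : ℕ} (P : List (RowsSym d)) (x y : RowsSym d) (l : List (RowsSym d)) :
    upd (Rows_tape (P ++ x :: l)) P.length y = Rows_tape (P ++ y :: l) := by
  funext i
  unfold upd Rows_tape
  simp only [List.getD_eq_getElem?_getD]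
  by_cases hi : i = P.length
  · subst hi; simp
  · rw [if_neg hi]
    rcases Nat.lt_or_gt_of_ne hi with h | h
    · rw [List.getElem?_append_left h, List.getElem?_append_left h]
    · rw [List.getElem?_append_right (by omega), List.getElem?_append_right (by omega)]
      obtain ⟨k, hk⟩ : ∃ k, i - P.length = k + 1 := ⟨i - P.length - 1, by omega⟩
      rw [hk]
      simp

lemma Rows_upd_end {d : ℕ} (P : List (RowsSym d)) (y : RowsSym d) :
    upd (Rows_tape P) P.length y = Rows_tape (P ++ [y]) := by
  funext i
  unfold upd Rows_tape
  simp only [List.getD_eq_getElem?_getD]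
  by_cases hi : i = P.length
  · subst hi; simp
  · rw [if_neg hi]
    rcases Nat.lt_or_gt_of_ne hi with h | h
    · rw [List.getElem?_append_left h]
    · rw [List.getElem?_append_right (by omega)]
      have h1 : P[i]? = none := List.getElem?_eq_none (by omega)
      have h2 : ([y] : List (RowsSym d))[i - P.length]? = none :=
        List.getElem?_eq_none (by simp; omega)
      rw [h1, h2]

lemma Rows_tape_nil {d : ℕ} : Rows_tape ([] : List (RowsSym d)) = fun _ => none := by
  funext i
  simp [Rows_tape]

lemma Rows_tape_blank {d : ℕ} (P : List (RowsSym d)) (r : ℕ) :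
    Rows_tape (P ++ List.replicate r none) = Rows_tape P := by
  funext i
  unfold Rows_tape
  simp only [List.getD_eq_getElem?_getD]
  by_cases hi : i < P.length
  · rw [List.getElem?_append_left hi]
  · rw [List.getElem?_append_right (by omega), List.getElem?_eq_none (l := P) (by omega)]
    rw [List.getElem?_replicate]
    split_ifs <;> rfl

/-- the word of the letter symbols of a tape has no mark -/
lemma Rows_no_mark {d : ℕ} (Z : List (Fin d)) (h : ℕ) (hh : 1 ≤ h) :
    Rows_tape (some none :: Z.map Rows_lt) h ≠ some none := by
  obtain ⟨k, rfl⟩ : ∃ k, h = k + 1 := ⟨h - 1, by omega⟩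
  unfold Rows_tape
  simp only [List.getD_eq_getElem?_getD, List.getElem?_cons_succ]
  by_cases hk : k < Z.length
  · rw [List.getElem?_map, List.getElem?_eq_getElem hk]
    simp [Rows_lt]
  · rw [List.getElem?_eq_none (by simpa using hk)]
    simp

lemma Rows_mark {d : ℕ} (l : List (RowsSym d)) : Rows_tape (some none :: l) 0 = some none := rfl

lemma Rows_tail_le {d M : ℕ} {x : Fin d} {l : List (Fin d)} (h : (x :: l).length ≤ M) :
    l.length ≤ M := le_trans (Nat.le_succ _) h

section

variable {p d : ℕ} (Y : Sys (Fin p) (Fin d)) (M : ℕ) (hM : ∀ q x, (Y.out q x).length ≤ M)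
  (hu : Y.u.length ≤ M)

/-- the transition function -/
def RowsTr : Trans Bool (RowsSt p d M) (RowsSym d) (Fin d) := fun s r =>
  match s with
  | .start => (.ini ⟨Y.u, hu⟩, Rows_two false (some none) (some none), Rows_two false 2 2,
      some Y.a)
  | .ini ⟨[], _⟩ => (.rew false (Y.δ Y.q0 Y.a), r, Rows_two false 1 1, none)
  | .ini ⟨z :: l, h⟩ => (.ini ⟨l, Rows_tail_le h⟩, Rows_two false (some (some z)) (r true),
      Rows_two false 2 1, some z)
  | .rew b q => if r b = some none ∧ r (!b) = some none then
        (.rd b q, r, Rows_two b 2 2, none)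
      else (.rew b q, r, Rows_two b 0 0, none)
  | .rd b q =>
    match r b with
    | some (some x) => (.wr b (Y.δ q x) ⟨Y.out q x, hM q x⟩, Rows_two b none (r (!b)),
        Rows_two b 2 1, none)
    | _ => (.rew (!b) q, r, Rows_two b 1 1, none)
  | .wr b q ⟨[], _⟩ => (.rd b q, r, Rows_two b 1 1, none)
  | .wr b q ⟨z :: l, h⟩ => (.wr b q ⟨l, Rows_tail_le h⟩, Rows_two b (r b) (some (some z)),
      Rows_two b 1 2, some z)

/-- the invariant: configuration and time -/
inductive RowsInv : Cfg Bool (RowsSt p d M) (RowsSym d) (Fin d) → ℕ → Prop
  | start : RowsInv (.start, fun _ _ => none, fun _ => 0, []) 0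
  | ini (l0 l : List (Fin d)) (hl : l.length ≤ M) (h : Y.u = l0 ++ l) :
      RowsInv (.ini ⟨l, hl⟩, Rows_two false (Rows_tape (some none :: l0.map Rows_lt))
        (Rows_tape [some none]), Rows_two false (1 + l0.length) 1, Y.a :: l0) (1 + l0.length)
  | rew (b : Bool) (q : Fin p) (i : ℕ) (Z out : List (Fin d)) (h1 h2 t : ℕ)
      (hst : Y.st i = (q, Z, out)) (hh1 : h1 ≤ 1 + Z.length) (hh2 : h2 ≤ 1 + Z.length)
      (ht : t + max h1 h2 + 1 ≤ 8 * out.length + 8) :
      RowsInv (.rew b q, Rows_two b (Rows_tape (some none :: Z.map Rows_lt))
        (Rows_tape [some none]), Rows_two b h1 h2, out) t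
  | rd (b : Bool) (q : Fin p) (i : ℕ) (u W out : List (Fin d)) (r t : ℕ)
      (hst : Y.st i = (q, u ++ W, out)) (hr : r ≤ W.length)
      (ht : t + 5 * W.length ≤ 8 * out.length + 8) :
      RowsInv (.rd b q, Rows_two b
        (Rows_tape (some none :: (List.replicate r none ++ u.map Rows_lt)))
        (Rows_tape (some none :: W.map Rows_lt)), Rows_two b (1 + r) (1 + W.length), out) t
  | wr (b : Bool) (q : Fin p) (i : ℕ) (u W l out : List (Fin d)) (hl : l.length ≤ M) (r t : ℕ)
      (hst : Y.st i = (q, u ++ W ++ l, out ++ l)) (hr : r ≤ W.length + l.length)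
      (ht : t + 5 * W.length ≤ 8 * out.length + 9)
      (ht' : l = [] → t + 5 * W.length + 1 ≤ 8 * out.length + 8) :
      RowsInv (.wr b q ⟨l, hl⟩, Rows_two b
        (Rows_tape (some none :: (List.replicate r none ++ u.map Rows_lt)))
        (Rows_tape (some none :: W.map Rows_lt)), Rows_two b (1 + r) (1 + W.length), out) t

lemma Rows_inv_step (c : Cfg Bool (RowsSt p d M) (RowsSym d) (Fin d)) (t : ℕ)
    (h : RowsInv Y M c t) : RowsInv Y M (step (RowsTr Y M hM hu) c) (t + 1) := by
  cases h with
  | start =>
    have e : ((.start, fun _ _ => none, fun _ => 0, []) :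
        Cfg Bool (RowsSt p d M) (RowsSym d) (Fin d)) =
        (.start, Rows_two false (Rows_tape []) (Rows_tape []), Rows_two false 0 0, []) := by
      rw [Rows_tape_nil]
      refine Prod.ext rfl (Prod.ext ?_ (Prod.ext ?_ rfl))
      · funext j; cases j <;> rfl
      · funext j; cases j <;> rfl
    rw [e, Rows_step (q' := .ini ⟨Y.u, hu⟩) (x' := some none) (y' := some none) (d1 := 2)
      (d2 := 2) (o := some Y.a) rfl]
    have h1 := Rows_upd_end ([] : List (RowsSym d)) (some none)
    rw [List.length_nil, List.nil_append] at h1
    rw [h1]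
    exact RowsInv.ini (Y := Y) (M := M) [] Y.u hu rfl
  | ini l0 l hl h =>
    cases l with
    | nil =>
      rw [Rows_step (q' := .rew false (Y.δ Y.q0 Y.a)) (d1 := 1) (d2 := 1) (o := none) rfl,
        upd_self, upd_self]
      simp only [List.append_nil] at h
      subst h
      simp only [Option.toList_none, List.append_nil]
      refine RowsInv.rew false _ 0 Y.u _ _ _ _ Y.st_zero ?_ ?_ ?_
      · simp
      · simp
      · simp only [List.length_cons]
        have : max (1 + Y.u.length + ((1 : Fin 3) : ℕ) - 1) (1 + ((1 : Fin 3) : ℕ) - 1) =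
          1 + Y.u.length := by
          simp
        rw [this]
        omega
    | cons z l =>
      rw [Rows_step (q' := .ini ⟨l, Rows_tail_le hl⟩) (x' := some (some z))
        (y' := (Rows_tape [some none] : ℕ → RowsSym d) 1) (d1 := 2) (d2 := 1) (o := some z) rfl,
        upd_self]
      have h1 := Rows_upd_end (some none :: l0.map Rows_lt : List (RowsSym d)) (some (some z))
      rw [List.length_cons, List.length_map, Nat.add_comm] at h1
      rw [h1]
      have h2 := RowsInv.ini (Y := Y) (M := M) (l0 ++ [z]) l (Rows_tail_le hl) (by simp [h])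
      have e1 : (some none :: List.map Rows_lt l0 ++ [some (some z)] : List (RowsSym d)) =
          some none :: List.map Rows_lt (l0 ++ [z]) := by
        simp [Rows_lt]
      have e5 : 1 + l0.length + ((2 : Fin 3) : ℕ) - 1 = 1 + (l0 ++ [z]).length := by
        rw [List.length_append]
        simp only [Fin.isValue, Fin.val_two, List.length_cons, List.length_nil]
        omega
      have e6 : 1 + ((1 : Fin 3) : ℕ) - 1 = 1 := by simp
      have e7 : 1 + l0.length + 1 = 1 + (l0 ++ [z]).length := by
        rw [List.length_append]
        simp only [List.length_cons, List.length_nil]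
        omega
      rw [e1, e5, e6, e7]
      exact h2
  | rew b q i Z out h1 h2 t hst hh1 hh2 ht =>
    by_cases h0 : h1 = 0 ∧ h2 = 0
    · obtain ⟨rfl, rfl⟩ := h0
      rw [Rows_step (q' := .rd b q)
        (x' := (Rows_tape (some none :: Z.map Rows_lt) : ℕ → RowsSym d) 0)
        (y' := (Rows_tape [some none] : ℕ → RowsSym d) 0) (d1 := 2) (d2 := 2) (o := none)
        (by simp [RowsTr, Rows_mark]), upd_self, upd_self]
      have h3 := RowsInv.rd (Y := Y) (M := M) b q i Z [] out 0 (t + 1) (by simpa using hst)
        (Nat.le_refl _) (by simp at ht ⊢; omega)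
      simpa using h3
    · have h3 : ¬ ((Rows_tape (some none :: Z.map Rows_lt) : ℕ → RowsSym d) h1 = some none ∧
          (Rows_tape [some none] : ℕ → RowsSym d) h2 = some none) := by
        rintro ⟨h4, h5⟩
        apply h0
        constructor
        · by_contra h6
          exact Rows_no_mark Z h1 (by omega) h4
        · by_contra h6
          exact Rows_no_mark ([] : List (Fin d)) h2 (by omega) h5
      rw [Rows_step (q' := .rew b q)
        (x' := (Rows_tape (some none :: Z.map Rows_lt) : ℕ → RowsSym d) h1)
        (y' := (Rows_tape [some none] : ℕ → RowsSym d) h2) (d1 := 0) (d2 := 0) (o := none)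
        (by simp only [RowsTr, Rows_two_b, Rows_two_nb]; rw [if_neg h3]), upd_self, upd_self]
      simp only [Option.toList_none, List.append_nil]
      refine RowsInv.rew b q i Z out _ _ _ hst ?_ ?_ ?_
      · simp; omega
      · simp; omega
      · simp only [Fin.isValue, Fin.val_zero, Nat.add_zero]
        omega
  | rd b q i u W out r t hst hr ht =>
    cases u with
    | nil =>
      have hK := Y.K_pos i
      rw [Sys.K, hst] at hK
      simp only [List.nil_append] at hK hst
      have e0 : (some none :: (List.replicate r none ++ List.map Rows_lt ([] : List (Fin d))) :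
          List (RowsSym d)) = [some none] ++ List.replicate r none := by simp
      rw [e0, Rows_tape_blank]
      have e1 : (Rows_tape [some none] : ℕ → RowsSym d) (1 + r) = none := by
        unfold Rows_tape
        simp [List.getD_eq_getElem?_getD, Nat.add_comm 1 r]
      rw [Rows_step (q' := .rew (!b) q)
        (x' := (Rows_tape [some none] : ℕ → RowsSym d) (1 + r))
        (y' := (Rows_tape (some none :: W.map Rows_lt) : ℕ → RowsSym d) (1 + W.length))
        (d1 := 1) (d2 := 1) (o := none)
        (by simp only [RowsTr, Rows_two_b, e1]), upd_self, upd_self]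
      simp only [Option.toList_none, List.append_nil]
      rw [Rows_two_flip b, Rows_two_flip b]
      refine RowsInv.rew (!b) q i W out _ _ _ hst ?_ ?_ ?_
      · simp
      · simp; omega
      · simp only [Fin.isValue, Fin.val_one, Nat.add_sub_cancel]
        omega
    | cons x u =>
      have e0 : (some none :: (List.replicate r none ++ List.map Rows_lt (x :: u)) :
          List (RowsSym d)) = (some none :: List.replicate r none) ++ Rows_lt x ::
            List.map Rows_lt u := by simp
      have e1 : (some none :: List.replicate r none : List (RowsSym d)).length = 1 + r := by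
        simp [Nat.add_comm]
      have e2 : Rows_tape ((some none :: List.replicate r none) ++ Rows_lt x ::
            List.map Rows_lt u) (1 + r) = Rows_lt x := by
        rw [← e1, Rows_tape_mid]
      have e3 : upd (Rows_tape ((some none :: List.replicate r none) ++ Rows_lt x ::
            List.map Rows_lt u)) (1 + r) none = Rows_tape ((some none :: List.replicate r none) ++
              none :: List.map Rows_lt u) := by
        rw [← e1, Rows_upd_mid]
      rw [e0]
      rw [Rows_step (q' := .wr b (Y.δ q x) ⟨Y.out q x, hM q x⟩)
        (x' := none)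
        (y' := (Rows_tape (some none :: W.map Rows_lt) : ℕ → RowsSym d) (1 + W.length))
        (d1 := 2) (d2 := 1) (o := none)
        (by rw [e2]; simp only [RowsTr, Rows_two_b, Rows_lt, Rows_two_nb]), upd_self, e3]
      have e4 : ((some none :: List.replicate r none) ++ none :: List.map Rows_lt u :
          List (RowsSym d)) = some none :: (List.replicate (r + 1) none ++ List.map Rows_lt u) := by
        rw [List.replicate_succ', List.append_assoc]
        rfl
      have hs : Y.st (i + 1) = (Y.δ q x, u ++ W ++ Y.out q x, out ++ Y.out q x) := by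
        rw [Y.st_succ, hst]
        rfl
      have hne := List.length_pos_iff.2 (Y.hne q x)
      have h3 := RowsInv.wr (Y := Y) (M := M) b (Y.δ q x) (i + 1) u W (Y.out q x) out (hM q x)
        (r + 1) (t + 1) hs (by omega) (by omega)
        (by intro h; exact absurd h (Y.hne q x))
      have e5 : 1 + r + ((2 : Fin 3) : ℕ) - 1 = 1 + (r + 1) := by
        simp only [Fin.isValue, Fin.val_two]
        omega
      have e6 : 1 + W.length + ((1 : Fin 3) : ℕ) - 1 = 1 + W.length := by simp
      rw [e4, e5, e6]
      simpa using h3
  | wr b q i u W l out hl r t hst hr ht ht' =>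
    cases l with
    | nil =>
      simp only [List.append_nil] at hst
      rw [Rows_step (q' := .rd b q)
        (x' := (Rows_tape (some none :: (List.replicate r none ++ u.map Rows_lt)) :
          ℕ → RowsSym d) (1 + r))
        (y' := (Rows_tape (some none :: W.map Rows_lt) : ℕ → RowsSym d) (1 + W.length))
        (d1 := 1) (d2 := 1) (o := none) rfl, upd_self, upd_self]
      have := ht' rfl
      have h3 := RowsInv.rd (Y := Y) (M := M) b q i u W out r (t + 1) hst (by simpa using hr)
        (by omega)
      simpa using h3
    | cons z l =>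
      rw [Rows_step (q' := .wr b q ⟨l, Rows_tail_le hl⟩)
        (x' := (Rows_tape (some none :: (List.replicate r none ++ u.map Rows_lt)) :
          ℕ → RowsSym d) (1 + r))
        (y' := some (some z))
        (d1 := 1) (d2 := 2) (o := some z) (by simp only [RowsTr, Rows_two_b]), upd_self]
      have h1 := Rows_upd_end (some none :: W.map Rows_lt : List (RowsSym d)) (some (some z))
      rw [List.length_cons, List.length_map, Nat.add_comm] at h1
      rw [h1]
      have e1 : (some none :: List.map Rows_lt W ++ [some (some z)] : List (RowsSym d)) =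
          some none :: List.map Rows_lt (W ++ [z]) := by
        simp [Rows_lt]
      rw [e1]
      have h3 := RowsInv.wr (Y := Y) (M := M) b q i u (W ++ [z]) l (out ++ [z])
        (Rows_tail_le hl) r (t + 1) (by simpa using hst)
        (by simp only [List.length_append, List.length_cons, List.length_nil] at hr ⊢; omega)
        (by simp only [List.length_append, List.length_cons, List.length_nil]; omega)
        (by intro _; simp only [List.length_append, List.length_cons, List.length_nil]; omega)
      have e5 : 1 + W.length + ((2 : Fin 3) : ℕ) - 1 = 1 + (W ++ [z]).length := by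
        rw [List.length_append]
        simp only [Fin.isValue, Fin.val_two, List.length_cons, List.length_nil]
        omega
      have e6 : 1 + r + ((1 : Fin 3) : ℕ) - 1 = 1 + r := by simp
      rw [e5, e6]
      exact h3

lemma Rows_inv_time (c : Cfg Bool (RowsSt p d M) (RowsSym d) (Fin d)) (t : ℕ)
    (h : RowsInv Y M c t) : t ≤ 8 * c.2.2.2.length + 9 := by
  cases h with
  | start => omega
  | ini l0 l hl h => simp only [List.length_cons]; omega
  | rew b q i Z out h1 h2 t hst hh1 hh2 ht => simp only; omega
  | rd b q i u W out r t hst hr ht => simp only; omega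
  | wr b q i u W l out hl r t hst hr ht ht' => simp only; omega

lemma Rows_inv_space (c : Cfg Bool (RowsSt p d M) (RowsSym d) (Fin d)) (t : ℕ)
    (h : RowsInv Y M c t) : ∃ i, i ≤ c.2.2.2.length ∧ c.2.2.2 <+: Y.T i ∧
      ∀ j, c.2.2.1 j ≤ 1 + Y.K i := by
  cases h with
  | start =>
    refine ⟨0, le_rfl, List.nil_prefix, fun j => ?_⟩
    simp
  | ini l0 l hl h =>
    refine ⟨0, Nat.zero_le _, ?_, fun j => ?_⟩
    · rw [Sys.T, Y.st_zero, h]
      simp
    · apply Rows_two_le
      · have : Y.K 0 = Y.u.length := by rw [Sys.K, Y.st_zero]
        rw [this, h, List.length_append]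
        omega
      · omega
  | rew b q i Z out h1 h2 t hst hh1 hh2 ht =>
    have hT : Y.T i = out := by rw [Sys.T, hst]
    have hK : Y.K i = Z.length := by rw [Sys.K, hst]
    have hl := Y.T_length i
    rw [hT] at hl
    refine ⟨i, ?_, ?_, fun j => ?_⟩
    · simp only; omega
    · rw [hT]
    · rw [hK]
      exact Rows_two_le hh1 hh2 j
  | rd b q i u W out r t hst hr ht =>
    have hT : Y.T i = out := by rw [Sys.T, hst]
    have hK : Y.K i = u.length + W.length := by rw [Sys.K, hst, List.length_append]
    have hl := Y.T_length i
    rw [hT] at hl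
    refine ⟨i, ?_, ?_, fun j => ?_⟩
    · simp only; omega
    · rw [hT]
    · rw [hK]
      exact Rows_two_le (by omega) (by omega) j
  | wr b q i u W l out hl r t hst hr ht ht' =>
    have hT : Y.T i = out ++ l := by rw [Sys.T, hst]
    have hK : Y.K i = u.length + W.length + l.length := by
      rw [Sys.K, hst, List.length_append, List.length_append]
    have hl := Y.T_length i
    rw [hT, List.length_append] at hl
    refine ⟨i, ?_, ?_, fun j => ?_⟩
    · simp only; omega
    · rw [hT]
      exact List.prefix_append _ _
    · rw [hK]
      exact Rows_two_le (by omega) (by omega) j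

end

/-- TASK Rows. A two-tape machine that generates the word of an iterated transducer row by row,
in linear time and space `O(Y.K n)`.
Read `Pool/Agent/W_MP_5d512e_lc/Machine.lean` (generic machines `Trans ι Q Γ D`, `step`, and
`encode`, the translation to the `Fin` format, outputs and heads being preserved) and
`Pool/Agent/W_MP_5d512e_lc/Algo.lean` (a similar machine, with helper lemmas `upd`, `tape`,
`reads`), and `Pool/Agent/W_MP_5d512e_h33/Queue.lean` (queue process `Y.st i`: state, queue, total
word `Y.T i`; `Y.K i` queue length, nondecreasing, `≥ 1`; `Y.T_length`; `Y.T_getElem`).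

Machine: tapes indexed by `Bool`, symbols `blank | mark | ltr (x : Fin d)`, states
* `start`: write `mark` in cell 0 of both tapes, both heads go to 1, output `Y.a`, next
  `ini Y.u`;
* `ini (z :: l)`: write `z` on tape `false` (head right), output `z`, next `ini l`;
  `ini []`: next `rew false (Y.δ Y.q0 Y.a)`;
  (words in states: lists of length at most `M`, with `M` bounding `Y.u.length` and all
  `(Y.out q x).length`, so that the state set is finite);
* `rew b q`: if both heads scan `mark`, both heads go right and the next state is `rd b q`;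
  otherwise the heads that do not scan `mark` go left, the state stays;
* `rd b q`: if tape `b` has `ltr x` under its head: replace it by `blank`, this head goes right,
  next state `wr b (Y.δ q x) (Y.out q x)`; if it scans `blank`: next `rew (!b) q`;
* `wr b q (z :: l)`: write `z` on tape `!b` (its head goes right), output `z`, next `wr b q l`;
  `wr b q []`: next `rd b q`.

Invariant at the start of the reading of a row, state `rd b q`, both heads at 1: for some `i`,
`Y.st i = (q, Z, T)`, output so far is `T`, tape `b` is `mark, Z, blanks`, tape `!b` is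
`mark, blanks`. Reading the `j`-th letter: the configuration with state `rd b q'` has
`Y.st (i + j) = (q', Z', T')` with `Z' = (unread letters of tape b) ++ (letters written on tape
!b)`, output `T'`, so all heads are at most `1 + max (row length, letters written)
≤ 1 + Y.K (i + j)`-ish; precisely heads `+ 1 ≤ Y.K n + M + 3` whenever fewer than `n` letters
have been output, since then `i + j < n` (`Y.T_length : (Y.T i).length = i + 1 + Y.K i`) and
`Y.K` is nondecreasing. The row ends after `Z.length` letters and the next invariant holds at
`i + Z.length` with `!b`.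
Time: each letter read costs at most `M + 2` steps, each row end at most (length of the written
row) `+ 3` steps for rewinding; as the number of letters of the written row is at most the number
of letters output during this row, at any time the number of steps is at most
`(M + 8) * (number of letters output so far + 1)` or so (any bound `C * (outputs + 1)` will do; the
letters output during a rewinding are zero, but its length is bounded by the letters output
before). Hence `t ≤ C * (n + 1)` if before time `t` fewer than `n` letters are output. -/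
theorem rows {p d : ℕ} (Y : Sys (Fin p) (Fin d)) :
    ∃ C : ℕ, Gen (fun n => C * (n + 1)) (fun n => C * Y.K n) Y.lim := by
  classical
  obtain ⟨M, hM, hu⟩ : ∃ M, (∀ q x, (Y.out q x).length ≤ M) ∧ Y.u.length ≤ M := by
    refine ⟨max (Finset.univ.sup (fun sx : Fin p × Fin d => (Y.out sx.1 sx.2).length))
      Y.u.length, ?_, le_max_right _ _⟩
    intro s x
    exact (Finset.le_sup (f := fun sx : Fin p × Fin d => (Y.out sx.1 sx.2).length)
      (Finset.mem_univ (s, x))).trans (le_max_left _ _)
  obtain ⟨m, k, g, δM, conf, e, h0, hstep, hout, hhead⟩ :=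
    encode (.start : RowsSt p d M) (none : RowsSym d) (RowsTr Y M hM hu)
  set c : ℕ → Cfg Bool (RowsSt p d M) (RowsSym d) (Fin d) := fun t =>
    (step (RowsTr Y M hM hu))^[t] (.start, fun _ _ => none, fun _ => 0, []) with hc
  have hinv : ∀ t, RowsInv Y M (c t) t := by
    intro t
    induction t with
    | zero => exact RowsInv.start
    | succ t ih =>
      have : c (t + 1) = step (RowsTr Y M hM hu) (c t) := by
        rw [hc]
        simp only [Function.iterate_succ_apply']
      rw [this]
      exact Rows_inv_step Y M hM hu _ _ ih
  have hhd : ∀ t j, (c (t + 1)).2.2.1 j ≤ (c t).2.2.1 j + 1 := by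
    intro t j
    have : c (t + 1) = step (RowsTr Y M hM hu) (c t) := by
      rw [hc]
      simp only [Function.iterate_succ_apply']
    rw [this]
    unfold step
    simp only
    have := (((RowsTr Y M hM hu) (c t).1
      (fun j' => (c t).2.1 j' ((c t).2.2.1 j'))).2.2.1 j).isLt
    omega
  refine ⟨18, m, k, g, δM, conf, h0, hstep, ?_, ?_, ?_⟩
  · intro t i h
    obtain ⟨i0, -, hpre, -⟩ := Rows_inv_space Y M _ _ (hinv t)
    have h1 : (conf t).2.2.2 <+: Y.T i0 := by rw [hout t]; exact hpre
    rw [h1.getElem h]
    exact Y.T_getElem _
  · intro n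
    refine ⟨8 * n + 9, ?_⟩
    have h1 := Rows_inv_time Y M _ _ (hinv (8 * n + 9))
    rw [hout]
    have h2 : 8 * n + 9 ≤ 8 * (c (8 * n + 9)).2.2.2.length + 9 := h1
    have h3 : n ≤ (c (8 * n + 9)).2.2.2.length := by omega
    exact h3
  · intro n t hn ht
    cases t with
    | zero =>
      refine ⟨Nat.zero_le _, fun j => ?_⟩
      rw [hhead]
      simp only [Function.iterate_zero, id_eq]
      have := Y.K_pos n
      omega
    | succ t =>
      have h1 := ht t (Nat.lt_succ_self t)
      rw [hout t] at h1
      have h1' : (c t).2.2.2.length < n := h1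
      have h2 := Rows_inv_time Y M _ _ (hinv t)
      obtain ⟨i0, hi0, -, hh⟩ := Rows_inv_space Y M _ _ (hinv t)
      refine ⟨by simp only; omega, fun j => ?_⟩
      rw [hhead]
      have h3 := hhd t (e.symm j)
      have h4 := hh (e.symm j)
      have h5 := Y.K_mono (show i0 ≤ n by omega)
      have h6 := Y.K_pos n
      have h7 : ((step (RowsTr Y M hM hu))^[t + 1]
        (.start, fun _ _ => none, fun _ => 0, [])).2.2.1 (e.symm j) =
          (c (t + 1)).2.2.1 (e.symm j) := rfl
      rw [h7]
      simp only
      omega

end Pool.Agent.W_5d512e_h80
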