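import Pool.Agent.W_5d512e_h80.Ring
import Pool.Agent.W_5d512e_h80.Filter
import Pool.Agent.W_5d512e_h80.Count
import Pool.Agent.W_5d512e_h80.Growth
import Pool.Agent.W_5d512e_h80.Rows

/-!
# Growth of iterated transducers against time and space: assembly
-/

set_option autoImplicit false

namespace Pool.Agent.W_5d512e_h80

open Pool.Agent.W_MP_5d512e_h33 Pool.Agent.W_MP_5d512e_lc

/-! ### Change of states and letters -/

section

variable {S S' A B : Type}

/-- Renaming of the states. -/
def mapS (f : S ≃ S') (Y : Sys S A) : Sys S' A where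
  δ := fun q x => f (Y.δ (f.symm q) x)
  out := fun q x => Y.out (f.symm q) x
  q0 := f Y.q0
  a := Y.a
  u := Y.u
  hne := fun q x => Y.hne _ x
  ha := by simp [Y.ha]
  hu := Y.hu

lemma mapS_st (f : S ≃ S') (Y : Sys S A) (i : ℕ) :
    (mapS f Y).st i = (f (Y.st i).1, (Y.st i).2.1, (Y.st i).2.2) := by
  induction i with
  | zero => simp [Sys.st_zero, mapS]
  | succ i ih =>
    rw [Sys.st_succ, ih, Sys.st_succ]
    obtain ⟨q, Z, T⟩ := Y.st i
    cases Z with
    | nil => rfl
    | cons x Z => simp [qstep, mapS]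

lemma t_eq_of_K_eq {Y : Sys S A} {Y' : Sys S' B} (h : ∀ i, Y.K i = Y'.K i) (n : ℕ) :
    Y.t n = Y'.t n := by
  induction n with
  | zero => rfl
  | succ n ih => rw [Y.t_succ, Y'.t_succ, ih, h]

lemma growthWord_of_sys [Finite S] [Finite A] (Y : Sys S A) {s : ℕ → ℕ} {b C : ℕ}
    (hb : ∀ q x, (Y.out q x).length ≤ b) (h : ∀ n, Y.t n ≤ C * (n + 1) * s n) :
    ∃ (D : ℕ) (e : A ≃ Fin D), GrowthWord b s (fun i => e (Y.lim i)) := by
  obtain ⟨p, ⟨f⟩⟩ := Finite.exists_equiv_fin S
  obtain ⟨D, ⟨e⟩⟩ := Finite.exists_equiv_fin A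
  refine ⟨D, e, p, C, ((mapS f Y).map e).δ, ((mapS f Y).map e).q0, ((mapS f Y).map e).out,
    ((mapS f Y).map e).a, ?_, ?_, ?_⟩
  · have h1 := ((mapS f Y).map e).iterates
    have h2 : ((mapS f Y).map e).lim = fun i => e (Y.lim i) := by
      funext i
      rw [← Sys.T_getElem (Y := (mapS f Y).map e) (i := i) (j := i)
        (by have := ((mapS f Y).map e).T_length i; omega)]
      have hT : ((mapS f Y).map e).T i = (Y.T i).map e := by
        rw [Sys.map_T]
        congr 1
        rw [Sys.T, mapS_st, Sys.T]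
      have hi : i < (Y.T i).length := by have := Y.T_length i; omega
      rw [← Y.T_getElem hi]
      simp [hT]
    rw [h2] at h1
    exact h1
  · intro q x
    have h5 := hb (f.symm q) (e.symm x)
    simpa [Sys.map, mapS] using h5
  · intro n
    have h3 : ((mapS f Y).map e).t n = Y.t n := by
      apply t_eq_of_K_eq
      intro i
      rw [Sys.map_K, Sys.K, Sys.K, mapS_st]
    have h4 := h n
    rw [← h3] at h4
    exact h4

end

lemma Gen.mono {d : ℕ} {w : ℕ → Fin d} {T S T' S' : ℕ → ℕ} (hT : ∀ n, T n ≤ T' n)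
    (hS : ∀ n, S n ≤ S' n) (h : Gen T S w) : Gen T' S' w := by
  obtain ⟨m, k, g, δM, conf, c0, cs, co, cu, cb⟩ := h
  refine ⟨m, k, g, δM, conf, c0, cs, co, cu, fun n t hn ht => ?_⟩
  obtain ⟨h1, h2⟩ := cb n t hn ht
  exact ⟨h1.trans (hT n), fun j => (h2 j).trans (hS n)⟩

/-- The words of slow growth are generated fast and in small space. -/
theorem timeSpace_of_growthWord {D b : ℕ} {W : ℕ → Fin D} {s : ℕ → ℕ} (hs : Adm s)
    (h : GrowthWord b s W) : TimeSpace s W := by
  obtain ⟨p, C, δ, q0, out, a, hI, -, hg⟩ := h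
  have hta : trans δ q0 out [a] = out q0 a := by
    simp [Pool.Agent.W_MP_5d512e_h33.trans]
  obtain ⟨u, hu⟩ := hI.start
  rw [hta] at hu
  have hu' : out q0 a = a :: u := hu.symm
  have hne : u ≠ [] := by
    rintro rfl
    obtain ⟨n, hn⟩ := hI.unbounded 2
    have : ∀ n, (trans δ q0 out)^[n] [a] = [a] := by
      intro n
      induction n with
      | zero => rfl
      | succ n ih => rw [Function.iterate_succ_apply', ih, hta, hu']
    rw [this] at hn
    simp at hn
  let Y : Sys (Fin p) (Fin D) := ⟨δ, out, q0, a, u, hI.nonerasing, hu', hne⟩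
  have hw : Y.lim = W := by
    funext i
    have hlt : i < ((trans δ q0 out)^[i] [a]).length := Y.t_lt i
    rw [← hI.limit i i hlt]
    exact (Y.iterate_getElem i i hlt).symm
  obtain ⟨C', hC'⟩ := K_le_of_growth Y hs (C := C) hg
  obtain ⟨C₁, hC₁⟩ := rows Y
  rw [hw] at hC₁
  refine ⟨C₁ * C' + C₁ + 1, hC₁.mono (fun n => ?_) (fun n => ?_)⟩
  · have h1 : (n + 1) ^ 1 ≤ (n + 1) ^ (C₁ * C' + C₁ + 1) :=
      Nat.pow_le_pow_right (by omega) (by omega)
    rw [pow_one] at h1
    exact Nat.mul_le_mul (by omega) h1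
  · calc C₁ * Y.K n ≤ C₁ * (C' * s n) := Nat.mul_le_mul_left _ (hC' n)
      _ = (C₁ * C') * s n := by ring
      _ ≤ (C₁ * C' + C₁ + 1) * s n := Nat.mul_le_mul_right _ (by omega)

lemma filterOf_of {D d : ℕ} {W : ℕ → Fin D} {w : ℕ → Fin d} (φ : Fin D → Option (Fin d))
    (X : ℕ → List (Fin D)) (hX : ∀ t, X t = (List.range (X t).length).map W)
    (hlen : ∀ t, t ≤ (X t).length)
    (hw : ∀ (t i : ℕ) (h : i < ((X t).filterMap φ).length), ((X t).filterMap φ)[i] = w i)
    {C : ℕ} (hn : ∀ n, ∃ t, (X t).length ≤ C * (n + 1) ^ C ∧ n ≤ ((X t).filterMap φ).length) :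
    FilterOf W w := by
  refine ⟨φ, C, fun N i hi => ?_, fun n => ?_⟩
  · have h1 : (List.range N).map W <+: X N := by
      rw [hX N]
      exact prefix_range _ (hlen N)
    have h2 := h1.filterMap φ
    rw [h2.getElem hi]
    exact hw N i _
  · obtain ⟨t, h1, h2⟩ := hn n
    have h3 : X t <+: (List.range (C * (n + 1) ^ C)).map W := by
      conv_lhs => rw [hX t]
      exact prefix_range _ h1
    exact h2.trans (h3.filterMap φ).length_le

/-- The words generated in polynomial time and small space are filters of words of slow growth. -/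
theorem filter_of_timeSpace {d : ℕ} {w : ℕ → Fin d} {s : ℕ → ℕ} (hs : Adm s)
    (h : TimeSpace s w) : ∃ (D : ℕ) (W : ℕ → Fin D), GrowthWord 2 s W ∧ FilterOf W w := by
  obtain ⟨C, m, k, g, δM, conf, c0, cs, co, cu, cb⟩ := h
  have hcf : ∀ t, conf t = cf (δM : Trans (Fin k) (Fin (m+1)) (Fin (g+1)) (Fin d)) 0 0 t := by
    intro t
    induction t with
    | zero => rw [c0]; rfl
    | succ t ih => rw [cs, cf_succ, ← ih]; rfl
  set δ : Trans (Fin k) (Fin (m+1)) (Fin (g+1)) (Fin d) := δM with hδ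
  set Y := rsys δ 0 0 with hY
  set L := Lq δ 0 0 with hL
  set τ := tq δ 0 0 with hτ
  have hs1 : ∀ n, 1 ≤ s n := fun n => le_trans (by omega) (hs.log n)
  have hlen : ∀ t, (conf t).2.2.2.length ≤ t := by
    intro t
    induction t with
    | zero => rw [c0]; simp
    | succ t ih =>
      have h1 := out_length_step δ (conf t)
      have h2 : conf (t + 1) = step δ (conf t) := by rw [cs]; rfl
      rw [h2]
      omega
  have hLb : ∀ t, L t ≤ (C + 1) * s t := by
    intro t
    induction t with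
    | zero =>
      have h1 : L 0 = 1 := rfl
      have h2 := hs1 0
      rw [h1]
      nlinarith
    | succ t ih =>
      rcases (Lq_succ δ 0 0 t).2 with h1 | ⟨j, hj⟩
      · have h2 : s t ≤ s (t + 1) := hs.mono (by omega)
        have h3 : (C + 1) * s t ≤ (C + 1) * s (t + 1) := Nat.mul_le_mul_left _ h2
        have h4 : L (t + 1) = L t := h1
        omega
      · have h2 := (cb (t + 1) (t + 1) (by omega) (fun t' ht' => by
          have := hlen t'
          omega)).2 j
        rw [hcf, hj] at h2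
        have h3 : L (t + 1) ≤ C * s (t + 1) := h2
        have h4 : C * s (t + 1) ≤ (C + 1) * s (t + 1) := Nat.mul_le_mul_right _ (by omega)
        omega
  have hK : ∀ i, Y.K (τ i) = L i := K_tq δ 0 0
  have hτs : ∀ i, τ (i + 1) = τ i + 2 * (L i + 1) := fun i => rfl
  have hLs : ∀ i, L (i + 1) ≤ L i + 1 := fun i => (Lq_succ δ 0 0 i).1
  obtain ⟨C', hC'⟩ := growth_of_times Y (rsys_out_le δ 0 0) hs (τ := τ) (L := L) rfl hτs hK hLs hLb
  obtain ⟨D, e, hW⟩ := growthWord_of_sys Y (rsys_out_le δ 0 0) hC'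
  refine ⟨D, _, hW, ?_⟩
  have hLt : ∀ t, L t ≤ t + 1 := by
    intro t
    induction t with
    | zero => exact le_of_eq rfl
    | succ t ih => have := hLs t; omega
  have hτt : ∀ t, t ≤ τ t := by
    intro t
    induction t with
    | zero => exact Nat.zero_le _
    | succ t ih => have := hτs t; omega
  have hτb : ∀ t, τ t ≤ 2 * t * (t + 2) := by
    intro t
    induction t with
    | zero => exact Nat.zero_le _
    | succ t ih =>
      have h1 := hτs t
      have h2 := hLt t
      rw [h1]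
      nlinarith
  refine filterOf_of (fun x => phi (e.symm x)) (fun t => (Y.T (τ t)).map e) ?_ ?_ ?_
    (C := 4 * (C + 1) ^ 2 + 2 * C) ?_
  · intro t
    apply List.ext_getElem
    · simp
    · intro i h1 h2
      have h3 : i < (Y.T (τ t)).length := by simpa using h1
      simp [Y.T_getElem h3]
  · intro t
    simp only [List.length_map]
    have := Y.T_length (τ t)
    have := hτt t
    omega
  · intro t i hi
    have e1 : ((Y.T (τ t)).map e).filterMap (fun x => phi (e.symm x)) = (conf t).2.2.2 := by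
      rw [List.filterMap_map, hcf t, ← filter_tq δ 0 0 t]
      congr 1
      funext x
      simp
    have hi' : i < (conf t).2.2.2.length := by rw [← e1]; exact hi
    rw [← co t i hi']
    simp only [e1]
  · intro n
    have e1 : ∀ t, ((Y.T (τ t)).map e).filterMap (fun x => phi (e.symm x)) = (conf t).2.2.2 := by
      intro t
      rw [List.filterMap_map, hcf t, ← filter_tq δ 0 0 t]
      congr 1
      funext x
      simp
    obtain ⟨t, ht1, ht2⟩ : ∃ t, t ≤ C * (n + 1) ^ C ∧ n ≤ (conf t).2.2.2.length := by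
      rcases Nat.eq_zero_or_pos n with h0 | h0
      · exact ⟨0, Nat.zero_le _, by omega⟩
      · classical
        have hex := cu n
        refine ⟨Nat.find hex, ?_, Nat.find_spec hex⟩
        exact (cb n (Nat.find hex) h0 (fun t' ht' => by
          have := Nat.find_min hex ht'
          omega)).1
    refine ⟨t, ?_, ?_⟩
    · simp only [List.length_map]
      have h1 := Y.T_length (τ t)
      have h2 := hτb t
      have h3 := hLt t
      have h4 := hK t
      rw [h1, h4]
      have h5 : τ t + 1 + L t ≤ 4 * (t + 1) ^ 2 := by nlinarith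
      refine h5.trans ?_
      have hp : 1 ≤ (n + 1) ^ C := Nat.one_le_pow _ _ (by omega)
      have h6 : t + 1 ≤ (C + 1) * (n + 1) ^ C := by
        have : (C + 1) * (n + 1) ^ C = C * (n + 1) ^ C + (n + 1) ^ C := by ring
        omega
      calc 4 * (t + 1) ^ 2 ≤ 4 * ((C + 1) * (n + 1) ^ C) ^ 2 :=
            Nat.mul_le_mul_left _ (Nat.pow_le_pow_left h6 2)
        _ = 4 * (C + 1) ^ 2 * (n + 1) ^ (2 * C) := by ring
        _ ≤ (4 * (C + 1) ^ 2 + 2 * C) * (n + 1) ^ (4 * (C + 1) ^ 2 + 2 * C) :=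
            Nat.mul_le_mul (by omega) (Nat.pow_le_pow_right (by omega) (by omega))
    · rw [e1]
      exact ht2

/-- Words generated in polynomial time and space `O(s)` are exactly the filters of the words of
growth `O(n * s n)`. -/
theorem timeSpace_iff {s : ℕ → ℕ} (hs : Adm s) {d : ℕ} (w : ℕ → Fin d) :
    TimeSpace s w ↔ ∃ (D : ℕ) (W : ℕ → Fin D), GrowthWord 2 s W ∧ FilterOf W w :=
  ⟨filter_of_timeSpace hs, fun ⟨_, _, h1, h2⟩ =>
    timeSpace_filter hs h2 (timeSpace_of_growthWord hs h1)⟩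

lemma logSpace_of_timeSpace {d : ℕ} {w : ℕ → Fin d}
    (h : TimeSpace (fun n => Nat.log 2 n + 1) w) : LogSpace w := by
  obtain ⟨C, m, k, g, δM, conf, c0, cs, co, cu, cb⟩ := h
  exact ⟨m, k, g, C, δM, conf, c0, cs, co, cu, fun n t hn ht => (cb n t hn ht).2⟩

theorem logSpace_iff {d : ℕ} (w : ℕ → Fin d) :
    LogSpace w ↔ ∃ (D : ℕ) (W : ℕ → Fin D),
      GrowthWord 2 (fun n => Nat.log 2 n + 1) W ∧ FilterOf W w :=
  ⟨fun h => (timeSpace_iff adm_log w).1 (timeSpace_of_logSpace h),
    fun h => logSpace_of_timeSpace ((timeSpace_iff adm_log w).2 h)⟩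

end Pool.Agent.W_5d512e_h80
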