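import Pool.Agent.W_5d512e_h80.Defs

/-!
# Simulation of a multi-tape machine by an iterated transducer

The configurations circulate in the queue of the iterated transducer, one letter being held in the
state. One step of the machine takes two rotations.
-/

set_option autoImplicit false

namespace Pool.Agent.W_5d512e_h80

open Pool.Agent.W_MP_5d512e_h33 Pool.Agent.W_MP_5d512e_lc

/-- Contents of one cell on all tapes, with the marks of the heads. -/
abbrev Cell (ι Γ : Type) := ι → Γ × Bool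

/-- Letters of the simulating transducer. -/
inductive Ltr (ι Γ D : Type)
  | S
  | c (x : Cell ι Γ)
  | m (o : Option D)

/-- States of the simulating transducer. -/
inductive Sta (ι Q Γ D : Type)
  | init
  | A (q : Q) (r : ι → Γ) (y : Ltr ι Γ D)
  | B0 (q : Q) (w : ι → Γ) (v : ι → Fin 3) (o : Option D)
  | B (q : Q) (w : ι → Γ) (v : ι → Fin 3) (y : Cell ι Γ) (f : ι → Bool)

section

variable {ι Q Γ D : Type}

/-- Gathering the scanned symbols. -/
def gat (r : ι → Γ) (x : Cell ι Γ) : ι → Γ := fun j => if (x j).2 then (x j).1 else r j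

/-- Head marks. -/
def flg (x : Cell ι Γ) : ι → Bool := fun j => (x j).2

/-- First cell, after the step, without the heads coming from the right. -/
def fst1 (w : ι → Γ) (v : ι → Fin 3) (x : Cell ι Γ) : Cell ι Γ :=
  fun j => (if (x j).2 then w j else (x j).1, (x j).2 && decide (v j ≠ 2))

/-- A cell, after the step, without the heads coming from the right. -/
def nxt1 (w : ι → Γ) (v : ι → Fin 3) (f : ι → Bool) (x : Cell ι Γ) : Cell ι Γ :=
  fun j => (if (x j).2 then w j else (x j).1,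
    ((x j).2 && decide (v j = 1)) || (f j && decide (v j = 2)))

/-- Adding the heads coming from the right. -/
def fin1 (v : ι → Fin 3) (y x : Cell ι Γ) : Cell ι Γ :=
  fun j => ((y j).1, (y j).2 || ((x j).2 && decide (v j = 0)))

/-- A new cell. -/
def ext1 (bl : Γ) (v : ι → Fin 3) (f : ι → Bool) : Cell ι Γ :=
  fun j => (bl, f j && decide (v j = 2))

/-- Is a new cell needed? -/
def need (v : ι → Fin 3) (f : ι → Bool) : Prop := ∃ j, f j = true ∧ v j = 2

variable (δ : Trans ι Q Γ D) (q₀ : Q) (bl : Γ)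

/-- Next state. -/
def del : Sta ι Q Γ D → Ltr ι Γ D → Sta ι Q Γ D
  | .init, _ => .A q₀ (fun _ => bl) (.m none)
  | .A q r _, .c x => .A q (gat r x) (.c x)
  | .A q r _, .S => .B0 (δ q r).1 (δ q r).2.1 (δ q r).2.2.1 (δ q r).2.2.2
  | .A q r _, .m _ => .B0 (δ q r).1 (δ q r).2.1 (δ q r).2.2.1 (δ q r).2.2.2
  | .B0 q w v _, .c x => .B q w v (fst1 w v x) (flg x)
  | .B0 q w v o, .S => .B0 q w v o
  | .B0 q w v o, .m _ => .B0 q w v o
  | .B q w v _ f, .c x => .B q w v (nxt1 w v f x) (flg x)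
  | .B q _ _ _ _, .S => .A q (fun _ => bl) (.m none)
  | .B q _ _ _ _, .m _ => .A q (fun _ => bl) (.m none)

open Classical in
/-- The last cells of a row. -/
noncomputable def lst (v : ι → Fin 3) (y : Cell ι Γ) (f : ι → Bool) : List (Cell ι Γ) :=
  if need v f then [y, ext1 bl v f] else [y]

/-- Output. -/
noncomputable def emi : Sta ι Q Γ D → Ltr ι Γ D → List (Ltr ι Γ D)
  | .init, _ => [.S, .c (fun _ => (bl, true))]
  | .A _ _ y, _ => [y]
  | .B0 _ _ _ o, _ => [.m o]
  | .B _ _ v y _, .c x => [.c (fin1 v y x)]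
  | .B _ _ v y f, .S => (lst bl v y f).map .c
  | .B _ _ v y f, .m _ => (lst bl v y f).map .c

lemma lst_ne (v : ι → Fin 3) (y : Cell ι Γ) (f : ι → Bool) : lst bl v y f ≠ [] := by
  unfold lst
  split_ifs <;> simp

lemma lst_length (v : ι → Fin 3) (y : Cell ι Γ) (f : ι → Bool) : (lst bl v y f).length ≤ 2 := by
  unfold lst
  split_ifs <;> simp

/-- The simulating system. -/
noncomputable def rsys : Sys (Sta ι Q Γ D) (Ltr ι Γ D) where
  δ := del δ q₀ bl
  out := emi bl
  q0 := .init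
  a := .S
  u := [.c (fun _ => (bl, true))]
  hne := by
    intro q x
    cases q <;> cases x <;> simp [emi, lst_ne]
  ha := rfl
  hu := by simp

lemma rsys_out_le (q : Sta ι Q Γ D) (x : Ltr ι Γ D) : ((rsys δ q₀ bl).out q x).length ≤ 2 := by
  change (emi bl q x).length ≤ 2
  cases q <;> cases x <;> simp [emi, lst_length]

/-! ### The two rotations -/

/-- One step of the queue. -/
noncomputable abbrev qs : Sta ι Q Γ D × List (Ltr ι Γ D) × List (Ltr ι Γ D) →
    Sta ι Q Γ D × List (Ltr ι Γ D) × List (Ltr ι Γ D) := qstep (del δ q₀ bl) (emi bl)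

lemma phaseA (l : List (Cell ι Γ)) (x : Cell ι Γ) (q : Q) (r : ι → Γ) (y : Ltr ι Γ D)
    (Z T : List (Ltr ι Γ D)) :
    (qs δ q₀ bl)^[l.length + 1] (.A q r y, (l ++ [x]).map .c ++ Z, T) =
      (.A q ((l ++ [x]).foldl gat r) (.c x), Z ++ (y :: l.map .c), T ++ (y :: l.map .c)) := by
  induction l generalizing r y Z T with
  | nil => simp [qs, qstep, del, emi]
  | cons a l ih =>
    rw [List.length_cons, Function.iterate_succ_apply]
    have h1 : qs δ q₀ bl (.A q r y, ((a :: l) ++ [x]).map .c ++ Z, T) =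
        (.A q (gat r a) (.c a), (l ++ [x]).map .c ++ (Z ++ [y]), T ++ [y]) := by
      simp [qs, qstep, del, emi]
    rw [h1, ih]
    simp

lemma phaseA' (l : List (Cell ι Γ)) (x : Cell ι Γ) (q : Q) (r : ι → Γ) (T : List (Ltr ι Γ D)) :
    (qs δ q₀ bl)^[l.length + 2] (.A q r (.m none), (l ++ [x]).map .c, T) =
      (.B0 (δ q ((l ++ [x]).foldl gat r)).1 (δ q ((l ++ [x]).foldl gat r)).2.1
        (δ q ((l ++ [x]).foldl gat r)).2.2.1 (δ q ((l ++ [x]).foldl gat r)).2.2.2,
        (l ++ [x]).map .c, T ++ (.m none :: (l ++ [x]).map .c)) := by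
  have h := phaseA δ q₀ bl l x q r (.m none) [] T
  rw [List.append_nil] at h
  rw [show l.length + 2 = (l.length + 1) + 1 from rfl, Function.iterate_succ_apply', h]
  simp [qs, qstep, del, emi]

/-- Cells after the step, from the held cell on. -/
noncomputable def resB (w : ι → Γ) (v : ι → Fin 3) : Cell ι Γ → (ι → Bool) → List (Cell ι Γ) →
    List (Cell ι Γ)
  | y, f, [] => lst bl v y f
  | y, _f, x :: l => fin1 v y x :: resB w v (nxt1 w v _f x) (flg x) l

lemma phaseB (l : List (Cell ι Γ)) (q : Q) (w : ι → Γ) (v : ι → Fin 3) (y : Cell ι Γ)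
    (f : ι → Bool) (o : Option D) (Z T : List (Ltr ι Γ D)) :
    (qs δ q₀ bl)^[l.length + 1] (.B q w v y f, l.map .c ++ (.m o :: Z), T) =
      (.A q (fun _ => bl) (.m none), Z ++ (resB bl w v y f l).map .c,
        T ++ (resB bl w v y f l).map .c) := by
  induction l generalizing y f Z T with
  | nil => simp [qs, qstep, del, emi, resB]
  | cons a l ih =>
    rw [List.length_cons, Function.iterate_succ_apply]
    have h1 : qs δ q₀ bl (.B q w v y f, (a :: l).map .c ++ (.m o :: Z), T) =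
        (.B q w v (nxt1 w v f a) (flg a), l.map .c ++ (.m o :: (Z ++ [.c (fin1 v y a)])),
          T ++ [.c (fin1 v y a)]) := by
      simp [qs, qstep, del, emi]
    rw [h1, ih]
    simp [resB]

lemma phaseB' (x : Cell ι Γ) (l : List (Cell ι Γ)) (q : Q) (w : ι → Γ) (v : ι → Fin 3)
    (o : Option D) (T : List (Ltr ι Γ D)) :
    (qs δ q₀ bl)^[l.length + 2] (.B0 q w v o, (x :: l).map .c, T) =
      (.A q (fun _ => bl) (.m none), (resB bl w v (fst1 w v x) (flg x) l).map .c,
        T ++ (.m o :: (resB bl w v (fst1 w v x) (flg x) l).map .c)) := by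
  rw [show l.length + 2 = (l.length + 1) + 1 from rfl, Function.iterate_succ_apply]
  have h1 : qs δ q₀ bl (.B0 q w v o, (x :: l).map .c, T) =
      (.B q w v (fst1 w v x) (flg x), l.map .c ++ (.m o :: []), T ++ [.m o]) := by
    simp [qs, qstep, del, emi]
  rw [h1, phaseB]
  simp

/-! ### Encoding of the configurations -/

/-- The encoding of a cell of a configuration. -/
def enc (c : Cfg ι Q Γ D) (i : ℕ) : Cell ι Γ := fun j => (c.2.1 j i, decide (c.2.2.1 j = i))

lemma gat_foldl (c : Cfg ι Q Γ D) (r : ι → Γ) (L : ℕ) (j : ι) :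
    ((List.range L).map (enc c)).foldl gat r j =
      if c.2.2.1 j < L then c.2.1 j (c.2.2.1 j) else r j := by
  induction L with
  | zero => simp
  | succ L ih =>
    rw [List.range_succ, List.map_append, List.foldl_append]
    simp only [List.map_cons, List.map_nil, List.foldl_cons, List.foldl_nil]
    rw [gat]
    simp only [enc, decide_eq_true_eq]
    by_cases h : c.2.2.1 j = L
    · rw [if_pos h, if_pos (by omega), h]
    · rw [if_neg h, ih]
      by_cases h2 : c.2.2.1 j < L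
      · rw [if_pos h2, if_pos (by omega)]
      · rw [if_neg h2, if_neg (by omega)]

/-- The transition made at a configuration. -/
def tr1 (c : Cfg ι Q Γ D) : Q × (ι → Γ) × (ι → Fin 3) × Option D :=
  δ c.1 (fun j => c.2.1 j (c.2.2.1 j))

/-- The encoding of cell `i` after the step, without heads coming from the right. -/
def par (c : Cfg ι Q Γ D) (i : ℕ) : Cell ι Γ :=
  match i with
  | 0 => fst1 (tr1 δ c).2.1 (tr1 δ c).2.2.1 (enc c 0)
  | i + 1 => nxt1 (tr1 δ c).2.1 (tr1 δ c).2.2.1 (flg (enc c i)) (enc c (i + 1))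

lemma par_val (c : Cfg ι Q Γ D) (i : ℕ) (j : ι) :
    par δ c i j = ((step δ c).2.1 j i,
      decide ((c.2.2.1 j = i ∧ (((tr1 δ c).2.2.1 j : Fin 3) : ℕ) = 1) ∨
        (c.2.2.1 j = 0 ∧ i = 0 ∧ (((tr1 δ c).2.2.1 j : Fin 3) : ℕ) = 0) ∨
        (c.2.2.1 j + 1 = i ∧ (((tr1 δ c).2.2.1 j : Fin 3) : ℕ) = 2))) := by
  have hv := ((tr1 δ c).2.2.1 j).isLt
  have h0 : ∀ n : ℕ, n < 3 → (((tr1 δ c).2.2.1 j : Fin 3) : ℕ) = n →
      (tr1 δ c).2.2.1 j = (Fin.ofNat 3 n) := by
    intro n hn h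
    apply Fin.ext
    simp only [Fin.ofNat]
    omega
  cases i with
  | zero =>
    simp only [par, fst1, enc, decide_eq_true_eq]
    refine Prod.ext ?_ ?_
    · simp only [step, tr1]
      by_cases h : c.2.2.1 j = 0
      · rw [if_pos h, if_pos h.symm]
      · rw [if_neg h, if_neg (fun h' => h h'.symm)]
    · simp only
      rcases (show (((tr1 δ c).2.2.1 j : Fin 3) : ℕ) = 0 ∨ (((tr1 δ c).2.2.1 j : Fin 3) : ℕ) = 1 ∨
        (((tr1 δ c).2.2.1 j : Fin 3) : ℕ) = 2 by omega) with h | h | h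
      · have := h0 0 (by omega) h
        by_cases hh : c.2.2.1 j = 0 <;> simp [this, hh, Fin.ofNat]
      · have := h0 1 (by omega) h
        by_cases hh : c.2.2.1 j = 0 <;> simp [this, hh, Fin.ofNat]
      · have := h0 2 (by omega) h
        by_cases hh : c.2.2.1 j = 0 <;> simp [this, hh, Fin.ofNat]
  | succ i =>
    simp only [par, nxt1, enc, flg, decide_eq_true_eq]
    refine Prod.ext ?_ ?_
    · simp only [step, tr1]
      by_cases h : c.2.2.1 j = i + 1
      · rw [if_pos h, if_pos h.symm]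
      · rw [if_neg h, if_neg (fun h' => h h'.symm)]
    · simp only
      rcases (show (((tr1 δ c).2.2.1 j : Fin 3) : ℕ) = 0 ∨ (((tr1 δ c).2.2.1 j : Fin 3) : ℕ) = 1 ∨
        (((tr1 δ c).2.2.1 j : Fin 3) : ℕ) = 2 by omega) with h | h | h
      · have := h0 0 (by omega) h
        by_cases hh : c.2.2.1 j = i + 1 <;> by_cases hi : c.2.2.1 j = i <;>
          simp [this, hh, hi, Fin.ofNat]
      · have := h0 1 (by omega) h
        by_cases hh : c.2.2.1 j = i + 1 <;> by_cases hi : c.2.2.1 j = i <;>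
          simp [this, hh, hi, Fin.ofNat]
      · have := h0 2 (by omega) h
        by_cases hh : c.2.2.1 j = i + 1 <;> by_cases hi : c.2.2.1 j = i <;>
          simp [this, hh, hi, Fin.ofNat]

lemma fin1_par (c : Cfg ι Q Γ D) (i : ℕ) :
    fin1 (tr1 δ c).2.2.1 (par δ c i) (enc c (i + 1)) = enc (step δ c) i := by
  funext j
  have hv := ((tr1 δ c).2.2.1 j).isLt
  simp only [fin1, par_val, enc]
  refine Prod.ext rfl ?_
  have e : (step δ c).2.2.1 j = c.2.2.1 j + (((tr1 δ c).2.2.1 j : Fin 3) : ℕ) - 1 := rfl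
  have e0 : ((tr1 δ c).2.2.1 j = 0) ↔ ((((tr1 δ c).2.2.1 j : Fin 3) : ℕ) = 0) := by
    rw [← Fin.val_eq_val]
    rfl
  simp only [e]
  rw [Bool.eq_iff_iff]
  simp only [Bool.or_eq_true, Bool.and_eq_true, decide_eq_true_eq, e0]
  omega

lemma par_last (c : Cfg ι Q Γ D) (i : ℕ) (h : ∀ j, c.2.2.1 j < i + 1) :
    par δ c i = enc (step δ c) i := by
  funext j
  have hv := ((tr1 δ c).2.2.1 j).isLt
  have hj := h j
  simp only [par_val, enc]
  refine Prod.ext rfl ?_
  have e : (step δ c).2.2.1 j = c.2.2.1 j + (((tr1 δ c).2.2.1 j : Fin 3) : ℕ) - 1 := rfl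
  simp only [e]
  rw [Bool.eq_iff_iff]
  simp only [decide_eq_true_eq]
  omega

lemma ext_val (c : Cfg ι Q Γ D) (i : ℕ) (h : ∀ j, c.2.2.1 j < i + 1)
    (hb : ∀ j, c.2.1 j (i + 1) = bl) :
    ext1 bl (tr1 δ c).2.2.1 (flg (enc c i)) = enc (step δ c) (i + 1) := by
  funext j
  have hv := ((tr1 δ c).2.2.1 j).isLt
  have hj := h j
  have e : (step δ c).2.2.1 j = c.2.2.1 j + (((tr1 δ c).2.2.1 j : Fin 3) : ℕ) - 1 := rfl
  have e2 : ((tr1 δ c).2.2.1 j = 2) ↔ ((((tr1 δ c).2.2.1 j : Fin 3) : ℕ) = 2) := by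
    rw [← Fin.val_eq_val]
    rfl
  simp only [ext1, flg, enc]
  refine Prod.ext ?_ ?_
  · simp only [step]
    rw [if_neg (by omega), hb]
  · simp only [e]
    rw [Bool.eq_iff_iff]
    simp only [Bool.and_eq_true, decide_eq_true_eq, e2]
    omega

open Classical in
/-- Number of new cells. -/
noncomputable def nw (c : Cfg ι Q Γ D) (L : ℕ) : ℕ :=
  if need (tr1 δ c).2.2.1 (flg (enc c (L - 1))) then 1 else 0

lemma resB_val (c : Cfg ι Q Γ D) (L : ℕ) (h : ∀ j, c.2.2.1 j < L)
    (hb : ∀ j i, L ≤ i → c.2.1 j i = bl) (n i : ℕ) (hL : L = i + 1 + n) :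
    resB bl (tr1 δ c).2.1 (tr1 δ c).2.2.1 (par δ c i) (flg (enc c i))
      ((List.range' (i + 1) n).map (enc c)) =
      (List.range' i (n + 1 + nw δ c L)).map (enc (step δ c)) := by
  induction n generalizing i with
  | zero =>
    have hL' : L = i + 1 := by omega
    subst hL'
    simp only [List.range'_zero, List.map_nil, resB]
    rw [par_last δ c i h]
    by_cases hn : need (tr1 δ c).2.2.1 (flg (enc c i))
    · have e : nw δ c (i + 1) = 1 := if_pos hn
      rw [e, lst, if_pos hn, ext_val δ bl c i h (fun j => hb j _ le_rfl)]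
      simp [List.range'_succ]
    · have e : nw δ c (i + 1) = 0 := if_neg hn
      rw [e, lst, if_neg hn]
      simp
  | succ n ih =>
    have h1 := ih (i + 1) (by omega)
    rw [List.range'_succ, List.map_cons, resB, fin1_par,
      show n + 1 + 1 + nw δ c L = (n + 1 + nw δ c L) + 1 by omega, List.range'_succ,
      List.map_cons, ← h1]
    rfl

/-- The run of the machine. -/
def cf (t : ℕ) : Cfg ι Q Γ D := (step δ)^[t] (q₀, fun _ _ => bl, fun _ => 0, [])

lemma cf_succ (t : ℕ) : cf δ q₀ bl (t + 1) = step δ (cf δ q₀ bl t) := by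
  rw [cf, cf, Function.iterate_succ_apply']

/-- Number of cells in the queue. -/
noncomputable def Lq : ℕ → ℕ
  | 0 => 1
  | t + 1 => Lq t + nw δ (cf δ q₀ bl t) (Lq t)

/-- Times. -/
noncomputable def tq : ℕ → ℕ
  | 0 => 0
  | t + 1 => tq t + 2 * (Lq δ q₀ bl t + 1)

/-- The letters of the output tape. -/
def phi : Ltr ι Γ D → Option D
  | .m o => o
  | _ => none

lemma filterMap_cells (l : List (Cell ι Γ)) :
    ((l.map .c : List (Ltr ι Γ D))).filterMap phi = [] := by
  induction l with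
  | nil => rfl
  | cons a l ih =>
    rw [List.map_cons, List.filterMap_cons_none rfl, ih]

lemma head_step (c : Cfg ι Q Γ D) (L : ℕ) (h1 : 1 ≤ L) (h : ∀ j, c.2.2.1 j < L) (j : ι) :
    (step δ c).2.2.1 j < L + nw δ c L := by
  have e : (step δ c).2.2.1 j = c.2.2.1 j + (((tr1 δ c).2.2.1 j : Fin 3) : ℕ) - 1 := rfl
  have hv := ((tr1 δ c).2.2.1 j).isLt
  have hj := h j
  by_cases hn : (step δ c).2.2.1 j < L
  · omega
  · have h2 : (((tr1 δ c).2.2.1 j : Fin 3) : ℕ) = 2 := by omega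
    have h3 : c.2.2.1 j = L - 1 := by omega
    have hneed : need (tr1 δ c).2.2.1 (flg (enc c (L - 1))) :=
      ⟨j, by simp [flg, enc, h3], by rw [← Fin.val_eq_val]; exact h2⟩
    rw [nw, if_pos hneed]
    omega

lemma macro_step (c : Cfg ι Q Γ D) (L : ℕ) (h1 : 1 ≤ L) (h : ∀ j, c.2.2.1 j < L)
    (hb : ∀ j i, L ≤ i → c.2.1 j i = bl) (T : List (Ltr ι Γ D)) :
    ∃ T', (qs δ q₀ bl)^[2 * (L + 1)]
        (.A c.1 (fun _ => bl) (.m none), ((List.range L).map (enc c)).map .c, T) =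
      (.A (step δ c).1 (fun _ => bl) (.m none),
        ((List.range (L + nw δ c L)).map (enc (step δ c))).map .c, T ++ T') ∧
      T'.filterMap phi = (tr1 δ c).2.2.2.toList := by
  obtain ⟨n, rfl⟩ : ∃ n, L = n + 1 := ⟨L - 1, by omega⟩
  have hl : (List.range (n + 1)).map (enc c) =
      (List.range n).map (enc c) ++ [enc c n] := by
    rw [List.range_succ, List.map_append]
    rfl
  have hr : (List.range (n + 1)).map (enc c) =
      enc c 0 :: (List.range' 1 n).map (enc c) := by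
    rw [List.range_eq_range', List.range'_succ, List.map_cons]
  have hg : ((List.range (n + 1)).map (enc c)).foldl gat (fun _ => bl) =
      fun j => c.2.1 j (c.2.2.1 j) := by
    funext j
    rw [gat_foldl, if_pos (h j)]
  have hA := phaseA' δ q₀ bl ((List.range n).map (enc c)) (enc c n) c.1 (fun _ => bl) T
  rw [← hl, hg, List.length_map, List.length_range] at hA
  have hB := phaseB' δ q₀ bl (enc c 0) ((List.range' 1 n).map (enc c)) (tr1 δ c).1
    (tr1 δ c).2.1 (tr1 δ c).2.2.1 (tr1 δ c).2.2.2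
    (T ++ (.m none :: ((List.range (n + 1)).map (enc c)).map .c))
  rw [← hr, List.length_map, List.length_range'] at hB
  have hres := resB_val δ bl c (n + 1) h hb n 0 (by omega)
  have hpar : par δ c 0 = fst1 (tr1 δ c).2.1 (tr1 δ c).2.2.1 (enc c 0) := rfl
  rw [hpar] at hres
  rw [hres, ← List.range_eq_range'] at hB
  refine ⟨(.m none :: ((List.range (n + 1)).map (enc c)).map .c) ++
    (.m (tr1 δ c).2.2.2 :: ((List.range (n + 1 + nw δ c (n + 1))).map
      (enc (step δ c))).map .c), ?_, ?_⟩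
  · rw [show 2 * (n + 1 + 1) = (n + 2) + (n + 2) by ring, Function.iterate_add_apply, hA]
    refine Eq.trans ?_ (hB.trans ?_)
    · rfl
    · rw [List.append_assoc]
      rfl
  · rw [List.filterMap_append, List.filterMap_cons_none rfl, filterMap_cells, List.nil_append]
    cases ho : (tr1 δ c).2.2.2 with
    | none => rw [List.filterMap_cons_none rfl, filterMap_cells]; rfl
    | some x => rw [List.filterMap_cons_some (f := phi) (b := x) rfl, filterMap_cells]; rfl

theorem ring_inv (t : ℕ) :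
    1 ≤ Lq δ q₀ bl t ∧ (∀ j, (cf δ q₀ bl t).2.2.1 j < Lq δ q₀ bl t) ∧
    (∀ j i, Lq δ q₀ bl t ≤ i → (cf δ q₀ bl t).2.1 j i = bl) ∧
    ∃ T, (rsys δ q₀ bl).st (tq δ q₀ bl t) =
      (.A (cf δ q₀ bl t).1 (fun _ => bl) (.m none),
        ((List.range (Lq δ q₀ bl t)).map (enc (cf δ q₀ bl t))).map .c, T) ∧
      T.filterMap phi = (cf δ q₀ bl t).2.2.2 := by
  induction t with
  | zero =>
    refine ⟨le_rfl, fun j => ?_, fun j i _ => rfl, [.S, .c (fun _ => (bl, true))], ?_, rfl⟩
    · simp [cf, Lq]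
    · have : (rsys δ q₀ bl).st (tq δ q₀ bl 0) = (del δ q₀ bl .init .S,
        [.c (fun _ => (bl, true))], [.S, .c (fun _ => (bl, true))]) := rfl
      rw [this]
      have e : (List.range (Lq δ q₀ bl 0)).map (enc (cf δ q₀ bl 0)) =
          [fun _ => (bl, true)] := by
        have : enc (cf δ q₀ bl 0) 0 = (fun _ => (bl, true) : Cell ι Γ) := by
          funext j
          simp [cf, enc]
        simp [Lq, this]
      rw [e]
      rfl
  | succ t ih =>
    obtain ⟨h1, h2, h3, T, h4, h5⟩ := ih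
    have hL : Lq δ q₀ bl (t + 1) = Lq δ q₀ bl t + nw δ (cf δ q₀ bl t) (Lq δ q₀ bl t) := rfl
    have hτ : tq δ q₀ bl (t + 1) = tq δ q₀ bl t + 2 * (Lq δ q₀ bl t + 1) := rfl
    obtain ⟨T', h6, h7⟩ := macro_step δ q₀ bl (cf δ q₀ bl t) (Lq δ q₀ bl t) h1 h2 h3 T
    refine ⟨by omega, fun j => ?_, fun j i hi => ?_, T ++ T', ?_, ?_⟩
    · rw [cf_succ, hL]
      exact head_step δ _ _ h1 h2 j
    · rw [cf_succ]
      have hj := h2 j
      simp only [step]
      rw [if_neg (by omega)]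
      exact h3 j i (by omega)
    · have e : (rsys δ q₀ bl).st (tq δ q₀ bl (t + 1)) =
          (qs δ q₀ bl)^[2 * (Lq δ q₀ bl t + 1)] ((rsys δ q₀ bl).st (tq δ q₀ bl t)) := by
        rw [hτ]
        exact seq_add _ _ _ _ _
      rw [e, h4, h6, cf_succ, hL]
    · rw [List.filterMap_append, h5, h7, cf_succ]
      rfl

/-- A cell is only added when a head needs it. -/
lemma Lq_succ (t : ℕ) : Lq δ q₀ bl (t + 1) ≤ Lq δ q₀ bl t + 1 ∧
    (Lq δ q₀ bl (t + 1) = Lq δ q₀ bl t ∨
      ∃ j, (cf δ q₀ bl (t + 1)).2.2.1 j + 1 = Lq δ q₀ bl (t + 1)) := by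
  have hL : Lq δ q₀ bl (t + 1) = Lq δ q₀ bl t + nw δ (cf δ q₀ bl t) (Lq δ q₀ bl t) := rfl
  obtain ⟨h1, -⟩ := ring_inv δ q₀ bl t
  rw [nw] at hL
  split_ifs at hL with hn
  · refine ⟨by omega, Or.inr ?_⟩
    obtain ⟨j, h2, h3⟩ := hn
    refine ⟨j, ?_⟩
    have e : (cf δ q₀ bl (t + 1)).2.2.1 j = (cf δ q₀ bl t).2.2.1 j +
        (((tr1 δ (cf δ q₀ bl t)).2.2.1 j : Fin 3) : ℕ) - 1 := by
      rw [cf_succ]; rfl
    have h2' : (cf δ q₀ bl t).2.2.1 j = Lq δ q₀ bl t - 1 := by
      simpa [flg, enc] using h2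
    rw [h3] at e
    have : ((2 : Fin 3) : ℕ) = 2 := rfl
    omega
  · exact ⟨by omega, Or.inl (by omega)⟩

lemma K_tq (t : ℕ) : (rsys δ q₀ bl).K (tq δ q₀ bl t) = Lq δ q₀ bl t := by
  obtain ⟨-, -, -, T, h4, -⟩ := ring_inv δ q₀ bl t
  rw [Sys.K, h4]
  simp

lemma filter_tq (t : ℕ) :
    ((rsys δ q₀ bl).T (tq δ q₀ bl t)).filterMap phi = (cf δ q₀ bl t).2.2.2 := by
  obtain ⟨-, -, -, T, h4, h5⟩ := ring_inv δ q₀ bl t
  rw [Sys.T, h4]
  exact h5

instance [Finite ι] [Finite Γ] [Finite D] : Finite (Ltr ι Γ D) := by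
  let g : Ltr ι Γ D → Unit ⊕ Cell ι Γ ⊕ Option D := fun x =>
    match x with
    | .S => Sum.inl ()
    | .c x => Sum.inr (Sum.inl x)
    | .m o => Sum.inr (Sum.inr o)
  apply Finite.of_injective g
  intro x y h
  cases x <;> cases y <;> simp_all [g]

instance [Finite ι] [Finite Q] [Finite Γ] [Finite D] : Finite (Sta ι Q Γ D) := by
  let g : Sta ι Q Γ D → Unit ⊕ (Q × (ι → Γ) × Ltr ι Γ D) ⊕
      (Q × (ι → Γ) × (ι → Fin 3) × Option D) ⊕
      (Q × (ι → Γ) × (ι → Fin 3) × Cell ι Γ × (ι → Bool)) := fun x =>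
    match x with
    | .init => Sum.inl ()
    | .A q r y => Sum.inr (Sum.inl (q, r, y))
    | .B0 q w v o => Sum.inr (Sum.inr (Sum.inl (q, w, v, o)))
    | .B q w v y f => Sum.inr (Sum.inr (Sum.inr (q, w, v, y, f)))
  apply Finite.of_injective g
  intro x y h
  cases x <;> cases y <;> simp_all [g]

end

end Pool.Agent.W_5d512e_h80
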